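import Pool.Agent.Lib.MP_86b854_co.Bad.Spec
import Pool.Agent.Lib.MP_86b854_co.D.Bas

set_option autoImplicit false
set_option linter.unusedSectionVars false

/-!
# MP_86b854_co : the atoms (faces of a subgraph)
-/

namespace BadD

open PLM T72 C7 Finset Equiv

namespace Ato

open C7.Bas

variable {V : Type} [Fintype V] [DecidableEq V] {G : SimpleGraph V} [DecidableRel G.Adj]
  {M : CMap G.Dart V} {H : Finset G.Dart}

theorem cl_univ : Cl M H univ := fun d _ => by simp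

theorem cl_inter {ρ Φ : Finset (Fc M)} (h1 : Cl M H ρ) (h2 : Cl M H Φ) : Cl M H (ρ ∩ Φ) := by
  intro d hd
  rw [mem_inter, mem_inter, h1 d hd, h2 d hd]

theorem cl_sdiff {ρ Φ : Finset (Fc M)} (h1 : Cl M H ρ) (h2 : Cl M H Φ) : Cl M H (ρ \ Φ) := by
  intro d hd
  rw [mem_sdiff, mem_sdiff, h1 d hd, h2 d hd]

theorem mem_atoms {ρ : Finset (Fc M)} : ρ ∈ atoms M H ↔ Atm M H ρ := by
  classical
  simp [atoms]

theorem sub_of_mem {ρ Φ : Finset (Fc M)} (hρ : ρ ∈ atoms M H) (hΦ : Cl M H Φ) {f : Fc M}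
    (h1 : f ∈ ρ) (h2 : f ∈ Φ) : ρ ⊆ Φ := by
  obtain ⟨-, h3, h4⟩ := mem_atoms.1 hρ
  have h5 := h4 (ρ ∩ Φ) inter_subset_left ⟨f, mem_inter.2 ⟨h1, h2⟩⟩ (cl_inter h3 hΦ)
  exact inter_eq_left.1 h5

theorem eq_of_mem {ρ ρ' : Finset (Fc M)} (hρ : ρ ∈ atoms M H) (hρ' : ρ' ∈ atoms M H) {f : Fc M}
    (h1 : f ∈ ρ) (h2 : f ∈ ρ') : ρ = ρ' :=
  subset_antisymm (sub_of_mem hρ (mem_atoms.1 hρ').2.1 h1 h2)
    (sub_of_mem hρ' (mem_atoms.1 hρ).2.1 h2 h1)

theorem exists_atom (f : Fc M) : ∃ ρ ∈ atoms M H, f ∈ ρ := by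
  classical
  obtain ⟨ρ, hρ, hmin⟩ := exists_min_image
    (univ.filter fun ρ : Finset (Fc M) => Cl M H ρ ∧ f ∈ ρ) card
    ⟨univ, by simp [cl_univ]⟩
  rw [mem_filter] at hρ
  refine ⟨ρ, mem_atoms.2 ⟨⟨f, hρ.2.2⟩, hρ.2.1, fun ρ' h1 h2 h3 => ?_⟩, hρ.2.2⟩
  by_cases hf : f ∈ ρ'
  · have h4 := hmin ρ' (by simp [h3, hf])
    exact eq_of_subset_of_card_le h1 h4
  · exfalso
    have h4 := hmin (ρ \ ρ') (by
      rw [mem_filter]
      exact ⟨mem_univ _, cl_sdiff hρ.2.1 h3, mem_sdiff.2 ⟨hρ.2.2, hf⟩⟩)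
    have h5 : (ρ \ ρ').card < ρ.card := by
      apply card_lt_card
      refine ⟨sdiff_subset, fun h6 => ?_⟩
      obtain ⟨g, hg⟩ := h2
      exact (mem_sdiff.1 (h6 (h1 hg))).2 hg
    omega

theorem card_atoms : (atoms M H).card = ncls M H := by
  classical
  choose q hq1 hq2 using fun d : G.Dart => exists_atom (M := M) (H := H) (fc M d)
  have h := card_quot (clsS M H) (B := {ρ // ρ ∈ atoms M H}) (fun d => ⟨q d, hq1 d⟩) ?_ ?_
  · rw [ncls, h, Fintype.card_coe]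
  · rintro ⟨ρ, hρ⟩
    obtain ⟨f, hf⟩ := (mem_atoms.1 hρ).1
    obtain ⟨d, rfl⟩ := exists_fc f
    exact ⟨d, Subtype.ext (eq_of_mem (hq1 d) hρ (hq2 d) hf)⟩
  · intro a b
    constructor
    · intro hab
      have h1 := hab {x | fc M x ∈ q a} (fun x => by
        change fc M x ∈ q a ↔ fc M (M.φ x) ∈ q a
        rw [fc_phi]) fun x hx => (mem_atoms.1 (hq1 a)).2.1 x hx
      exact Subtype.ext (eq_of_mem (hq1 a) (hq1 b) (h1.1 (hq2 a)) (hq2 b))
    · intro hab S hS1 hS2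
      have hab' : q a = q b := congrArg Subtype.val hab
      have hΦ : ∀ x, fc M x ∈ (univ.filter fun f => ∃ x ∈ S, fc M x = f) ↔ x ∈ S := by
        intro x
        rw [mem_filter]
        constructor
        · rintro ⟨-, y, hy, hxy⟩
          exact (mem_of_fc hS1 hxy).1 hy
        · intro hx
          exact ⟨mem_univ _, x, hx, rfl⟩
      have hcl : Cl M H (univ.filter fun f => ∃ x ∈ S, fc M x = f) := by
        intro d hd
        rw [hΦ, hΦ]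
        exact hS2 d hd
      constructor
      · intro ha
        have h1 := sub_of_mem (hq1 a) hcl (hq2 a) ((hΦ a).2 ha)
        exact (hΦ b).1 (h1 (hab' ▸ hq2 b))
      · intro hb
        have h1 := sub_of_mem (hq1 b) hcl (hq2 b) ((hΦ b).2 hb)
        exact (hΦ a).1 (h1 (hab' ▸ hq2 a))

end Ato

theorem tAtoms : S_Atoms := by
  intro V _ _ G _ M hM H
  refine ⟨Ato.card_atoms, Ato.exists_atom, ?_, ?_⟩
  · intro ρ hρ ρ' hρ' hne
    rw [Finset.disjoint_left]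
    intro f h1 h2
    exact hne (Ato.eq_of_mem hρ hρ' h1 h2)
  · intro ρ hρ Φ hΦ f h1 h2
    exact Ato.sub_of_mem hρ hΦ h1 h2

end BadD
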