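import Pool.Agent.Lib.MP_86b854_co.Bad.Spec
import Pool.Agent.Lib.MP_86b854_co.D.Corner
import Pool.Agent.Lib.MP_86b854_co.D.FaceLen

set_option autoImplicit false

/-!
# MP_86b854_co : in a connected graph a region has a boundary
-/

namespace BadD

open PLM T72 C7 Finset Equiv

theorem tBdNe : S_BdNe := by
  classical
  intro V _ _ G _ M hM hG o R ho hR
  by_contra hne
  rw [not_nonempty_iff_eq_empty] at hne
  have hno : ∀ v : V, ∀ d ∈ bd M R, d.fst ≠ v := by
    intro v d hd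
    rw [hne] at hd
    exact absurd hd (notMem_empty d)
  have hc : ∀ d e : G.Dart, d.fst = e.fst → (fc M d ∈ R ↔ fc M e ∈ R) :=
    fun d e h => (tCorner V G M hM R e.fst).2 (hno _) d e h rfl
  have hs : ∀ d : G.Dart, fc M d ∈ R → fc M d.symm ∈ R := by
    intro d hd
    by_contra h
    have hd' : d ∈ bd M R := by
      simp only [bd, mem_filter, mem_univ, true_and]
      exact ⟨hd, h⟩
    rw [hne] at hd'
    exact absurd hd' (notMem_empty d)
  obtain ⟨f, hf⟩ := hR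
  obtain ⟨d0, hd0⟩ := Quotient.exists_rep f
  obtain ⟨d1, hd1⟩ := Quotient.exists_rep o
  have hd0 : fc M d0 ∈ R := by
    unfold fc
    rw [hd0]
    exact hf
  have hd1 : fc M d1 ∉ R := by
    unfold fc
    rw [hd1]
    exact ho
  have key : ∀ v : V, v ∈ {v : V | ∃ d : G.Dart, d.fst = v ∧ fc M d ∈ R} := by
    refine FaceLenAux.conn_closed hG _ d0.fst ⟨d0, rfl, hd0⟩ ?_
    rintro x ⟨e, he, heR⟩ y hxy
    exact ⟨(⟨(x, y), hxy⟩ : G.Dart).symm, rfl, hs _ ((hc e ⟨(x, y), hxy⟩ he).mp heR)⟩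
  obtain ⟨d, hd, hdR⟩ := key d1.fst
  exact hd1 ((hc d d1 hd).mp hdR)

end BadD
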