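import Pool.Agent.Lib.MP_86b854_co.Bad.Spec

set_option autoImplicit false

/-!
# MP_86b854_co : `S_BipBd`. A criterion for bipartite induced subgraphs
-/

namespace BadD

open PLM T72 C7 Finset Equiv

namespace BipBdM

variable {V : Type} [Fintype V] [DecidableEq V] {G : SimpleGraph V} [DecidableRel G.Adj]

/-- the graph inside of `S` -/
def sg (G : SimpleGraph V) (S : Finset V) : SimpleGraph V where
  Adj u v := G.Adj u v ∧ u ∈ S ∧ v ∈ S
  symm := ⟨fun _ _ h => ⟨h.1.symm, h.2.2, h.2.1⟩⟩
  loopless := ⟨fun _ h => G.loopless.irrefl _ h.1⟩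

theorem flip_card (z : G.Dart → ZMod 2) (hz : ∀ d, z d.symm = z d) (e : G.Dart) :
    (univ.filter fun d => z d + (if d = e ∨ d = e.symm then 1 else 0) ≠ 0).card % 4 =
      ((univ.filter fun d => z d ≠ 0).card + 2) % 4 := by
  have hes : e ≠ e.symm := fun h5 =>
    G.ne_of_adj e.adj (congrArg (fun d : G.Dart => d.fst) h5)
  have h01 : ∀ a : ZMod 2, a ≠ 0 → a + 1 = 0 := by decide
  have h10 : (1 : ZMod 2) ≠ 0 := by decide
  by_cases he : z e = 0
  · have h1 : (univ.filter fun d => z d + (if d = e ∨ d = e.symm then 1 else 0) ≠ 0) =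
        insert e (insert e.symm (univ.filter fun d => z d ≠ 0)) := by
      ext d
      simp only [mem_filter, mem_univ, true_and, mem_insert]
      by_cases h2 : d = e
      · subst h2
        rw [if_pos (Or.inl rfl), he, zero_add]
        exact ⟨fun _ => Or.inl rfl, fun _ => h10⟩
      · by_cases h3 : d = e.symm
        · subst h3
          rw [if_pos (Or.inr rfl), hz, he, zero_add]
          exact ⟨fun _ => Or.inr (Or.inl rfl), fun _ => h10⟩
        · rw [if_neg (by tauto), add_zero]
          tauto
    rw [h1, card_insert_of_notMem, card_insert_of_notMem]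
    · rw [mem_filter, hz]
      exact fun h => h.2 he
    · rw [mem_insert, mem_filter]
      rintro (h | h)
      · exact hes h
      · exact h.2 he
  · have h1 : (univ.filter fun d => z d ≠ 0) = insert e (insert e.symm
        (univ.filter fun d => z d + (if d = e ∨ d = e.symm then 1 else 0) ≠ 0)) := by
      ext d
      simp only [mem_filter, mem_univ, true_and, mem_insert]
      by_cases h2 : d = e
      · subst h2
        exact ⟨fun _ => Or.inl rfl, fun _ => he⟩
      · by_cases h3 : d = e.symm
        · subst h3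
          rw [hz]
          exact ⟨fun _ => Or.inr (Or.inl rfl), fun _ => he⟩
        · rw [if_neg (by tauto), add_zero]
          tauto
    rw [h1, card_insert_of_notMem, card_insert_of_notMem]
    · omega
    · rw [mem_filter, if_pos (Or.inr rfl), hz]
      exact fun h => h.2 (h01 _ he)
    · rw [mem_insert, mem_filter, if_pos (Or.inl rfl)]
      rintro (h | h)
      · exact hes h
      · exact h.2 (h01 _ he)

theorem walk_cyc (S : Finset V) {u v : V} (p : (sg G S).Walk u v) : ∃ z : G.Dart → ZMod 2,
    (∀ d, z d.symm = z d) ∧ (∀ d, z d ≠ 0 → d.fst ∈ S ∧ d.snd ∈ S) ∧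
    (∀ x, ∑ d : G.Dart, (if d.fst = x then z d else 0) =
      (if x = u then 1 else 0) + (if x = v then 1 else 0)) ∧
    (univ.filter fun d => z d ≠ 0).card % 4 = (2 * p.length) % 4 := by
  induction p with
  | nil =>
    refine ⟨fun _ => 0, fun _ => rfl, fun d h => absurd rfl h, fun x => ?_, ?_⟩
    · simp only [ite_self, sum_const_zero]
      split_ifs
      · decide
      · decide
    · simp
  | @cons u v w h p ih =>
    obtain ⟨z, h1, h2, h3, h4⟩ := ih
    let e : G.Dart := ⟨(u, v), h.1⟩
    have hes : e ≠ e.symm := fun h5 => G.ne_of_adj h.1 (congrArg (fun d : G.Dart => d.fst) h5)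
    have hss : ∀ d : G.Dart, d.symm = e ∨ d.symm = e.symm ↔ d = e ∨ d = e.symm := by
      intro d
      have h5 : d.symm = e ↔ d = e.symm :=
        ⟨fun h => by rw [← h, SimpleGraph.Dart.symm_symm],
          fun h => by rw [h, SimpleGraph.Dart.symm_symm]⟩
      have h6 : d.symm = e.symm ↔ d = e :=
        ⟨fun h => by rw [← SimpleGraph.Dart.symm_symm d, h, SimpleGraph.Dart.symm_symm],
          fun h => by rw [h]⟩
      rw [h5, h6, or_comm]
    refine ⟨fun d => z d + (if d = e ∨ d = e.symm then 1 else 0), fun d => ?_, fun d hd => ?_,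
      fun x => ?_, ?_⟩
    · simp only [hss, h1]
    · by_cases h5 : d = e ∨ d = e.symm
      · rcases h5 with rfl | rfl
        · exact h.2
        · exact ⟨h.2.2, h.2.1⟩
      · simp only [if_neg h5, add_zero] at hd
        exact h2 d hd
    · have h5 : ∀ d : G.Dart, (if d.fst = x then z d + (if d = e ∨ d = e.symm then 1 else 0)
          else 0) = (if d.fst = x then z d else 0) +
          ((if d = e then (if x = u then 1 else 0) else 0) +
            (if d = e.symm then (if x = v then 1 else 0) else 0)) := by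
        intro d
        by_cases h6 : d = e
        · subst h6
          have h7 : e.fst = x ↔ x = u := eq_comm
          rw [if_pos (Or.inl rfl), if_pos rfl, if_neg hes, add_zero]
          simp only [h7]
          split_ifs <;> simp
        · by_cases h8 : d = e.symm
          · subst h8
            have h7 : e.symm.fst = x ↔ x = v := eq_comm
            rw [if_pos (Or.inr rfl), if_neg h6, if_pos rfl, zero_add]
            simp only [h7]
            split_ifs <;> simp
          · have h9 : ¬ (d = e ∨ d = e.symm) := by tauto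
            rw [if_neg h9, if_neg h6, if_neg h8, add_zero, add_zero, add_zero]
      rw [sum_congr rfl fun d _ => h5 d, sum_add_distrib, sum_add_distrib, h3, sum_ite_eq',
        sum_ite_eq']
      simp only [mem_univ, if_true]
      have h6 : ((if x = v then 1 else 0) + (if x = v then 1 else 0) : ZMod 2) = 0 :=
        CharTwo.add_self_eq_zero _
      linear_combination h6
    · rw [flip_card z h1 e, SimpleGraph.Walk.length_cons]
      omega

end BipBdM

open BipBdM in
theorem tBipBd : S_BipBd := by
  classical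
  intro V _ _ G _ M hM o S hS
  by_contra hbip
  have hcol : ¬ (sg G S).Colorable 2 := by
    intro hc
    obtain ⟨c⟩ := hc
    apply hbip
    refine ⟨fun v => decide (c v = 0), fun u hu v hv huv => ?_⟩
    have h1 : c u ≠ c v := c.valid ⟨huv, hu, hv⟩
    intro h2
    apply h1
    have h3 : c u = 0 ↔ c v = 0 := by
      rw [decide_eq_decide] at h2
      exact h2
    generalize c u = a at *
    generalize c v = b at *
    fin_cases a <;> fin_cases b <;> simp_all
  rw [SimpleGraph.two_colorable_iff_forall_loop_even] at hcol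
  push Not at hcol
  obtain ⟨u, p, hp⟩ := hcol
  obtain ⟨z, h1, h2, h3, h4⟩ := walk_cyc S p
  obtain ⟨hvt, hal, hpl⟩ := hM
  obtain ⟨h, hh1, hh2⟩ := hpl z ⟨fun d => by rw [hal, h1], fun x => by
    simp only [hvt]
    rw [h3]
    exact CharTwo.add_self_eq_zero _⟩
  have hfc : ∀ d d' : G.Dart, M.φ.SameCycle d d' → h d = h d' :=
    fun d d' hd => PanD.eq_of_sameCycle hh1 hd
  let q : Fc M → ZMod 2 := Quotient.lift h hfc
  have hq : ∀ d, q (fc M d) = h d := fun d => rfl
  let R : Finset (Fc M) := Finset.univ.filter fun f => q f ≠ q o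
  have hR : ∀ d, fc M d ∈ R ↔ h d ≠ q o := by
    intro d
    change fc M d ∈ Finset.univ.filter (fun f => q f ≠ q o) ↔ _
    rw [Finset.mem_filter, hq]
    simp
  have ho : o ∉ R := by
    intro h1
    exact (Finset.mem_filter.mp h1).2 rfl
  have hK : ∀ a b c : ZMod 2, (a ≠ c ∧ ¬ b ≠ c) ∨ (b ≠ c ∧ ¬ a ≠ c) ↔ a + b ≠ 0 := by decide
  have hbd : ∀ d, d ∈ bd M R ↔ fc M d ∈ R ∧ fc M d.symm ∉ R := by
    intro d
    unfold bd
    rw [Finset.mem_filter]
    simp
  have hz : ∀ d, z d ≠ 0 ↔ d ∈ bd M R ∨ d.symm ∈ bd M R := by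
    intro d
    rw [hbd, hbd, SimpleGraph.Dart.symm_symm, hR, hR, hK, hh2 d, hal]
  have h5 := hS R ho fun d hd => h2 d ((hz d).2 (Or.inl hd))
  have h6 : (univ.filter fun d => z d ≠ 0).card = 2 * (bd M R).card := by
    have h7 : (univ.filter fun d => z d ≠ 0) = bd M R ∪ (bd M R).map
        ⟨SimpleGraph.Dart.symm, SimpleGraph.Dart.symm_involutive.injective⟩ := by
      ext d
      simp only [mem_filter, mem_univ, true_and, mem_union, mem_map, Function.Embedding.coeFn_mk]
      rw [hz]
      refine or_congr Iff.rfl ⟨fun h => ⟨d.symm, h, SimpleGraph.Dart.symm_symm d⟩, ?_⟩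
      rintro ⟨e, he, rfl⟩
      rw [SimpleGraph.Dart.symm_symm]
      exact he
    rw [h7, card_union_of_disjoint, card_map, two_mul]
    rw [disjoint_left]
    intro d hd hd'
    rw [mem_map] at hd'
    obtain ⟨e, he, rfl⟩ := hd'
    change e.symm ∈ bd M R at hd
    rw [hbd, SimpleGraph.Dart.symm_symm] at hd
    exact hd.2 ((hbd e).1 he).1
  rw [h6] at h4
  rw [Nat.not_even_iff_odd] at hp
  obtain ⟨a, ha⟩ := hp
  obtain ⟨b, hb⟩ := h5
  omega

end BadD
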