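import Pool.Agent.Lib.MP_86b854_co.Bad.Spec

set_option autoImplicit false

namespace BadD

theorem tChoice : S_Choice := by
  intro ι F W _ m inc on B hm h1 h2
  classical
  choose h v v' hv hv' hon hon' using h1
  choose b hb hB using h2
  have key : ∀ (x y : ι) (hx : m x ≠ x) (hy : m y ≠ y), x = y → v' x hx = v' y hy := by
    rintro x y hx hy rfl
    rfl
  have ne : ∀ a, m a ≠ a → m (m a) ≠ m a := fun a ha he => ha (by
    have := hm a
    rw [he] at this
    exact this)
  have e := Fintype.equivFin ι
  refine ⟨fun a => if ha : m a = a then b a ha else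
    if e a < e (m a) then v a ha else v' (m a) (ne a ha), ?_, ?_, ?_⟩
  · intro a
    by_cases ha : m a = a
    · simp only [dif_pos ha]
      exact hb a ha
    · simp only [dif_neg ha]
      by_cases hl : e a < e (m a)
      · simp only [if_pos hl]
        exact hv a ha
      · simp only [if_neg hl]
        have := hv' (m a) (ne a ha)
        rwa [hm a] at this
  · intro a ha
    have ha' : ¬ m a = a := ha
    have ha2 : ¬ m (m a) = m a := ne a ha
    simp only [dif_neg ha', dif_neg ha2]
    have hne : e (m a) ≠ e a := fun h => ha (e.injective h)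
    by_cases hl : e a < e (m a)
    · have hl2 : ¬ e (m a) < e (m (m a)) := by
        rw [hm a]
        exact not_lt.mpr hl.le
      simp only [if_pos hl, if_neg hl2]
      refine ⟨h a ha, hon a ha, ?_⟩
      rw [key (m (m a)) a (ne (m a) ha2) ha (hm a)]
      exact hon' a ha
    · have hl2 : e (m a) < e (m (m a)) := by
        rw [hm a]
        exact lt_of_le_of_ne (not_lt.mp hl) hne
      simp only [if_neg hl, if_pos hl2]
      exact ⟨h (m a) ha2, hon' (m a) ha2, hon (m a) ha2⟩
  · intro a ha
    simp only [dif_pos ha]
    exact hB a ha

end BadD
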