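import Pool.Agent.Lib.MP_86b854_co.Bad.Spec
import Pool.Agent.Lib.MP_86b854_co.D.Corner

set_option autoImplicit false

/-!
# MP_86b854_co : the graph of the pentagons is connected if there is only one region
-/

namespace BadD

open PLM T72 C7 Finset Equiv

theorem tConn0 (hA : S_Atoms) : S_Conn0 := by
  classical
  intro V _ _ G _ M hM R Ps hP hcard Q hQ hcl
  obtain ⟨-, hA2, -, hA4⟩ := hA V G M hM (Hd M Ps ∅)
  let Φ : Finset (Fc M) :=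
    univ.filter fun h => ∃ p ∈ Q, ∃ v, Inc M v p.1 ∧ Inc M v h
  have hΦ : ∀ h, h ∈ Φ ↔ ∃ p ∈ Q, ∃ v, Inc M v p.1 ∧ Inc M v h := fun h => by simp [Φ]
  have one : ∀ (a : V) (h h' : Fc M), a ∈ aV M Ps ∅ → Inc M a h → Inc M a h' → h ∈ Φ → h' ∈ Φ := by
    intro a h h' ha h1 h2 hh
    rw [hΦ] at hh ⊢
    obtain ⟨p, hp, v, hv1, hv2⟩ := hh
    simp only [aV, mem_filter, mem_univ, true_and] at ha
    obtain ⟨f', hf', -, haf⟩ := ha
    refine ⟨⟨f', hf'⟩, ?_, a, haf, h2⟩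
    by_cases hpf : p = ⟨f', hf'⟩
    · rw [← hpf]
      exact hp
    · exact hcl p hp ⟨f', hf'⟩ ⟨hpf, h, v, a, hv1, haf, hv2, h1⟩
  have hClΦ : Cl M (Hd M Ps ∅) Φ := by
    intro d hd
    have hd' : d.fst ∈ aV M Ps ∅ ∨ d.snd ∈ aV M Ps ∅ := by
      by_contra hcon
      rw [not_or] at hcon
      apply hd
      simp only [Hd, mem_filter, mem_univ, true_and]
      exact hcon
    have i1 : Inc M d.fst (fc M d) := ⟨d, rfl, rfl⟩
    have i2 : Inc M d.fst (fc M d.symm) := ⟨M.σ d, corner_fst hM d, (corner_fc_symm hM d).symm⟩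
    have i3 : Inc M d.snd (fc M d.symm) := ⟨d.symm, rfl, rfl⟩
    have i4 : Inc M d.snd (fc M d) := by
      refine ⟨M.σ d.symm, corner_fst hM d.symm, ?_⟩
      rw [← corner_fc_symm hM, SimpleGraph.Dart.symm_symm]
    rcases hd' with h | h
    · exact ⟨one _ _ _ h i1 i2, one _ _ _ h i2 i1⟩
    · exact ⟨one _ _ _ h i4 i3, one _ _ _ h i3 i4⟩
  -- every pentagon has a vertex
  have hv : ∀ p : {f // f ∈ Ps}, ∃ v, Inc M v p.1 := by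
    intro p
    obtain ⟨d, hd⟩ := Quotient.exists_rep p.1
    exact ⟨d.fst, d, rfl, hd⟩
  have hreg : ∀ p : {f // f ∈ Ps}, ∃ ρ ∈ regs M Ps ∅, p.1 ∈ ρ := by
    intro p
    obtain ⟨ρ, hρ, hpρ⟩ := hA2 p.1
    obtain ⟨v, hv⟩ := hv p
    refine ⟨ρ, ?_, hpρ⟩
    simp only [regs, mem_filter]
    refine ⟨hρ, p.1, hpρ, v, ?_, hv⟩
    simp only [aV, mem_filter, mem_univ, true_and]
    exact ⟨p.1, p.2, notMem_empty _, hv⟩
  rw [eq_univ_iff_forall]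
  intro q
  obtain ⟨p, hp⟩ := hQ
  obtain ⟨ρ, hρ, hpρ⟩ := hreg p
  obtain ⟨ρ', hρ', hqρ⟩ := hreg q
  have heq : ρ = ρ' := card_le_one.mp hcard ρ hρ ρ' hρ'
  have hρa : ρ ∈ atoms M (Hd M Ps ∅) := (mem_filter.mp hρ).1
  obtain ⟨v, hv⟩ := hv p
  have hpΦ : p.1 ∈ Φ := (hΦ p.1).mpr ⟨p, hp, v, hv, hv⟩
  have hsub := hA4 ρ hρa Φ hClΦ p.1 hpρ hpΦ
  have hqΦ : q.1 ∈ Φ := hsub (by rw [heq]; exact hqρ)
  rw [hΦ] at hqΦ
  obtain ⟨p', hp', u, hu1, hu2⟩ := hqΦ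
  have := hP.disj p'.1 p'.2 q.1 q.2 u hu1 hu2
  rw [← Subtype.ext this]
  exact hp'

end BadD
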