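import Pool.Agent.Lib.MP_86b854_co.Bad.Spec
import Pool.Agent.Lib.MP_86b854_co.D.FaceLen

set_option autoImplicit false

/-!
# MP_86b854_co : `S_Fam`. Odd closed sets of pentagons give odd regions
-/

namespace BadD

open PLM T72 C7 Finset Equiv

namespace FamM

variable {V : Type} [Fintype V] [DecidableEq V] {G : SimpleGraph V} [DecidableRel G.Adj]

/-- every face has a vertex -/
theorem exists_inc (M : CMap G.Dart V) (f : Fc M) : ∃ v, Inc M v f := by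
  induction f using Quotient.inductionOn with
  | _ d => exact ⟨d.fst, d, rfl, rfl⟩

theorem inc_fst (M : CMap G.Dart V) (d : G.Dart) : Inc M d.fst (fc M d) := ⟨d, rfl, rfl⟩

theorem inc_snd {M : CMap G.Dart V} (hM : PlaneMap M) (d : G.Dart) : Inc M d.snd (fc M d) :=
  ⟨M.φ d, FaceLenAux.phi_fst hM d, FaceLenAux.fc_phi M d⟩

open Classical in
/-- the faces which touch a pentagon of `Q` -/
noncomputable def Ph (M : CMap G.Dart V) (Ps : Finset (Fc M)) (Q : Finset {f // f ∈ Ps}) :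
    Finset (Fc M) :=
  univ.filter fun h => ∃ f ∈ Q, ∃ v, Inc M v f ∧ Inc M v h

theorem mem_Ph {M : CMap G.Dart V} {Ps : Finset (Fc M)} {Q : Finset {f // f ∈ Ps}} {h : Fc M} :
    h ∈ Ph M Ps Q ↔ ∃ f ∈ Q, ∃ v, Inc M v f ∧ Inc M v h := by
  classical
  simp [Ph]

theorem mem_aV {M : CMap G.Dart V} {Ps X : Finset (Fc M)} {v : V} :
    v ∈ aV M Ps X ↔ ∃ f ∈ Ps, f ∉ X ∧ Inc M v f := by
  classical
  simp [aV]

theorem mem_Hd {M : CMap G.Dart V} {Ps X : Finset (Fc M)} {d : G.Dart} :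
    d ∈ Hd M Ps X ↔ d.fst ∉ aV M Ps X ∧ d.snd ∉ aV M Ps X := by
  classical
  simp [Hd]

/-- the embedding of sets of pentagons -/
noncomputable abbrev emb {M : CMap G.Dart V} {Ps : Finset (Fc M)} (X : Finset {f // f ∈ Ps}) :
    Finset (Fc M) := X.map ⟨Subtype.val, Subtype.val_injective⟩

theorem mem_emb {M : CMap G.Dart V} {Ps : Finset (Fc M)} {X : Finset {f // f ∈ Ps}} {f : Fc M}
    (hf : f ∈ Ps) : f ∈ emb X ↔ (⟨f, hf⟩ : {f // f ∈ Ps}) ∈ X := by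
  rw [mem_map]
  constructor
  · rintro ⟨g, hg, hgf⟩
    have h1 : g = ⟨f, hf⟩ := Subtype.ext hgf
    rwa [← h1]
  · intro h
    exact ⟨_, h, rfl⟩

theorem Ph_cl {M : CMap G.Dart V} (hM : PlaneMap M) {Ps : Finset (Fc M)}
    {X Q : Finset {f // f ∈ Ps}} (hQ : ∀ p ∈ Q, ∀ q, (pg M Ps).Adj p q → q ∉ X → q ∈ Q) :
    Cl M (Hd M Ps (emb X)) (Ph M Ps Q) := by
  have key : ∀ (a : V) (h h' : Fc M), a ∈ aV M Ps (emb X) → Inc M a h → Inc M a h' →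
      h ∈ Ph M Ps Q → h' ∈ Ph M Ps Q := by
    intro a h h' ha hah hah' hh
    obtain ⟨f', hf', hfX, haf⟩ := mem_aV.1 ha
    obtain ⟨f, hf, v, hvf, hvh⟩ := mem_Ph.1 hh
    rw [mem_emb hf'] at hfX
    have h1 : (⟨f', hf'⟩ : {f // f ∈ Ps}) ∈ Q := by
      by_cases h2 : f = ⟨f', hf'⟩
      · rwa [← h2]
      · exact hQ f hf _ ⟨h2, h, v, a, hvf, haf, hvh, hah⟩ hfX
    exact mem_Ph.2 ⟨_, h1, a, haf, hah'⟩
  intro d hd
  rw [mem_Hd, not_and_or, not_not, not_not] at hd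
  have h1 : Inc M d.fst (fc M d.symm) := inc_snd hM d.symm
  have h2 : Inc M d.snd (fc M d.symm) := inc_fst M d.symm
  rcases hd with hd | hd
  · exact ⟨key _ _ _ hd (inc_fst M d) h1, key _ _ _ hd h1 (inc_fst M d)⟩
  · exact ⟨key _ _ _ hd (inc_snd hM d) h2, key _ _ _ hd h2 (inc_snd hM d)⟩

theorem Ph_Ps {M : CMap G.Dart V} {R Ps : Finset (Fc M)} (hP : Pent M R Ps)
    (Q : Finset {f // f ∈ Ps}) : Ph M Ps Q ∩ Ps = emb Q := by
  ext h
  rw [mem_inter, mem_Ph]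
  constructor
  · rintro ⟨⟨f, hf, v, hvf, hvh⟩, hh⟩
    have h1 := hP.disj f f.2 h hh v hvf hvh
    rw [mem_emb hh]
    have h2 : f = ⟨h, hh⟩ := Subtype.ext h1
    rwa [← h2]
  · intro hh
    obtain ⟨f, hf, rfl⟩ := mem_map.1 hh
    obtain ⟨v, hv⟩ := exists_inc M (f : Fc M)
    exact ⟨⟨f, hf, v, hv, hv⟩, f.2⟩

theorem Ph_tch {M : CMap G.Dart V} {Ps : Finset (Fc M)} {X Q : Finset {f // f ∈ Ps}}
    (hd : Disjoint Q X) {h : Fc M} (hh : h ∈ Ph M Ps Q) : Tch M (aV M Ps (emb X)) h := by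
  obtain ⟨f, hf, v, hvf, hvh⟩ := mem_Ph.1 hh
  refine ⟨v, mem_aV.2 ⟨f, f.2, ?_, hvf⟩, hvh⟩
  rw [mem_emb f.2]
  exact fun h => disjoint_left.1 hd hf h

end FamM

open FamM in
theorem tFam (hA : S_Atoms) : S_Fam := by
  classical
  intro V _ _ G _ M hM R Ps hP X F hF
  obtain ⟨-, hA2, hA3, hA4⟩ := hA V G M hM (Hd M Ps (emb X))
  have key : ∀ Q ∈ F, ∃ ρ ∈ atoms M (Hd M Ps (emb X)), ρ ⊆ Ph M Ps Q ∧ Odd (ρ ∩ Ps).card := by
    intro Q hQ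
    have hcl := Ph_cl hM (hF.closed Q hQ)
    set A := (atoms M (Hd M Ps (emb X))).filter fun ρ => ρ ⊆ Ph M Ps Q with hAd
    have h1 : Ph M Ps Q ∩ Ps = A.biUnion fun ρ => ρ ∩ Ps := by
      ext h
      rw [mem_inter, mem_biUnion]
      constructor
      · rintro ⟨hh, hhP⟩
        obtain ⟨ρ, hρ, hhρ⟩ := hA2 h
        exact ⟨ρ, mem_filter.2 ⟨hρ, hA4 ρ hρ _ hcl h hhρ hh⟩, mem_inter.2 ⟨hhρ, hhP⟩⟩
      · rintro ⟨ρ, hρ, hh⟩
        rw [mem_inter] at hh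
        exact ⟨(mem_filter.1 hρ).2 hh.1, hh.2⟩
    have h2 : (Ph M Ps Q ∩ Ps).card = ∑ ρ ∈ A, (ρ ∩ Ps).card := by
      rw [h1, card_biUnion]
      intro ρ hρ ρ' hρ' hne
      have h3 := hA3 ρ (mem_filter.1 hρ).1 ρ' (mem_filter.1 hρ').1 hne
      exact h3.mono inter_subset_left inter_subset_left
    rw [Ph_Ps hP Q, card_map] at h2
    have h3 := hF.odd Q hQ
    by_contra hcon
    push Not at hcon
    rw [h2, ← Nat.not_even_iff_odd] at h3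
    apply h3
    refine Finset.even_sum _ fun ρ hρ => ?_
    have h4 := hcon ρ (mem_filter.1 hρ).1 (mem_filter.1 hρ).2
    rwa [Nat.not_odd_iff_even] at h4
  choose! r hr1 hr2 hr3 using key
  have hne : ∀ Q ∈ F, ∃ f, f ∈ r Q ∧ f ∈ emb Q := by
    intro Q hQ
    have h1 : (r Q ∩ Ps).Nonempty := card_pos.1 (hr3 Q hQ).pos
    obtain ⟨f, hf⟩ := h1
    rw [mem_inter] at hf
    refine ⟨f, hf.1, ?_⟩
    rw [← Ph_Ps hP Q, mem_inter]
    exact ⟨hr2 Q hQ hf.1, hf.2⟩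
  apply card_le_card_of_injOn r
  · intro Q hQ
    rw [mem_coe] at hQ
    rw [mem_coe, mem_filter]
    refine ⟨?_, hr3 Q hQ⟩
    unfold regs
    rw [mem_filter]
    obtain ⟨f, hf, -⟩ := hne Q hQ
    exact ⟨hr1 Q hQ, f, hf, Ph_tch (hF.disjX Q hQ) (hr2 Q hQ hf)⟩
  · intro Q hQ Q' hQ' hrr
    rw [mem_coe] at hQ hQ'
    by_contra hneq
    have hd := hF.disj Q hQ Q' hQ' hneq
    have h1 : (r Q ∩ Ps).Nonempty := card_pos.1 (hr3 Q hQ).pos
    obtain ⟨f, hf⟩ := h1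
    rw [mem_inter] at hf
    have h2 : f ∈ emb Q := by
      rw [← Ph_Ps hP Q, mem_inter]
      exact ⟨hr2 Q hQ hf.1, hf.2⟩
    have h3 : f ∈ emb Q' := by
      rw [← Ph_Ps hP Q', mem_inter]
      refine ⟨hr2 Q' hQ' ?_, hf.2⟩
      rw [← hrr]
      exact hf.1
    rw [mem_emb hf.2] at h2 h3
    exact disjoint_left.1 hd h2 h3

end BadD
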