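import Pool.Agent.Lib.MP_86b854_co.Bad.Spec

set_option autoImplicit false

namespace BadD

open PLM T72 C7 Finset Equiv

theorem tFin (hSel : S_Sel) (hCh : S_Choice) (hVal : C7.S_Val) (hPC : S_PentCard) : S_Fin := by
  intro V _ _ G _ M o L P g hmin R Ps w hoR hbd hP hne m B hm hadj hBu hBv htwo
  classical
  obtain ⟨c, hc1, hc2, hc3⟩ := hCh {f // f ∈ Ps} (Fc M) V m (fun v a => Inc M v a.1)
    (fun v h => Inc M v h) B hm (by
      intro a ha
      obtain ⟨-, h, v, v', h1, h2, h3, h4⟩ := hadj a ha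
      exact ⟨h, v, v', h1, h2, h3, h4⟩) hBv
  obtain ⟨f0, hf0⟩ := hne
  -- extensions to all faces
  set c' : Fc M → V := fun f => if hf : f ∈ Ps then c ⟨f, hf⟩ else c ⟨f0, hf0⟩ with hc'
  set m' : Fc M → Fc M := fun f => if hf : f ∈ Ps then (m ⟨f, hf⟩).1 else f with hm'
  have c'_mem : ∀ f (hf : f ∈ Ps), c' f = c ⟨f, hf⟩ := fun f hf => by simp [hc', hf]
  have m'_mem : ∀ f (hf : f ∈ Ps), m' f = (m ⟨f, hf⟩).1 := fun f hf => by simp [hm', hf]
  have hinc : ∀ f ∈ Ps, Inc M (c' f) f := by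
    intro f hf
    rw [c'_mem f hf]
    exact hc1 ⟨f, hf⟩
  have hinv : ∀ f ∈ Ps, m' f ∈ Ps ∧ m' (m' f) = f := by
    intro f hf
    have h1 : m' f ∈ Ps := by
      rw [m'_mem f hf]
      exact (m ⟨f, hf⟩).2
    refine ⟨h1, ?_⟩
    rw [m'_mem _ h1]
    have : (⟨m' f, h1⟩ : {f // f ∈ Ps}) = m ⟨f, hf⟩ := Subtype.ext (m'_mem f hf)
    rw [this, hm]
  have hpair : ∀ f ∈ Ps, m' f ≠ f → ∃ h, Inc M (c' f) h ∧ Inc M (c' (m' f)) h := by
    intro f hf hmf
    have hne' : m ⟨f, hf⟩ ≠ ⟨f, hf⟩ := by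
      intro h
      apply hmf
      rw [m'_mem f hf, h]
    obtain ⟨h, h1, h2⟩ := hc2 ⟨f, hf⟩ hne'
    refine ⟨h, ?_, ?_⟩
    · rw [c'_mem f hf]
      exact h1
    · have h3 : m' f ∈ Ps := (hinv f hf).1
      rw [c'_mem _ h3]
      have : (⟨m' f, h3⟩ : {f // f ∈ Ps}) = m ⟨f, hf⟩ := Subtype.ext (m'_mem f hf)
      rw [this]
      exact h2
  have hex : ∀ f ∈ Ps, m' f = f → ∃ u, u ∉ inV M R ∧ G.Adj (c' f) u := by
    intro f hf hmf
    have hfix : m ⟨f, hf⟩ = ⟨f, hf⟩ := by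
      apply Subtype.ext
      rw [← m'_mem f hf]
      exact hmf
    rw [c'_mem f hf]
    exact hBu ⟨f, hf⟩ _ (hc3 ⟨f, hf⟩ hfix)
  have himg : Ps.image c' = univ.image c := by
    ext v
    simp only [mem_image, mem_univ, true_and]
    constructor
    · rintro ⟨f, hf, rfl⟩
      exact ⟨⟨f, hf⟩, (c'_mem f hf).symm⟩
    · rintro ⟨⟨f, hf⟩, rfl⟩
      exact ⟨f, hf, c'_mem f hf⟩
  have hbip := hSel V G M hmin.plane hmin.conn o R Ps w hoR hbd hP c' m' hinc hinv hpair hex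
  have hWsub : Ps.image c' ⊆ inV M R := by
    intro v hv
    obtain ⟨f, hf, rfl⟩ := mem_image.1 hv
    exact hP.inner f hf _ (hinc f hf)
  have haV : aV M Ps ∅ = inV M R := by
    ext v
    simp only [aV, mem_filter, mem_univ, true_and, notMem_empty, not_false_eq_true]
    constructor
    · rintro ⟨f, hf, hv⟩
      exact hP.inner f hf v hv
    · intro hv
      obtain ⟨f, hf, h⟩ := hP.cover v hv
      exact ⟨f, hf, h⟩
  have hcard : (inV M R).card = 5 * Ps.card := by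
    have := hPC V G M hmin.plane hmin.tri R Ps ∅ hP
    rw [haV, sdiff_empty] at this
    exact this
  have hkpos : 0 < Ps.card := card_pos.2 ⟨f0, hf0⟩
  have hWcard : (Ps.image c').card ≤ Ps.card := card_image_le
  have hnonempty : (inV M R \ Ps.image c').Nonempty := by
    rw [← card_pos, card_sdiff_of_subset hWsub]
    omega
  have hsum : ∑ f ∈ R, ((len M f : ℤ) - 4) = (Ps.card : ℤ) := by
    have h1 : ∑ f ∈ R, ((len M f : ℤ) - 4) = ∑ f ∈ R, (if f ∈ Ps then (1 : ℤ) else 0) := by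
      apply sum_congr rfl
      intro f hf
      by_cases hfP : f ∈ Ps
      · rw [if_pos hfP, hP.five f hfP]
        norm_num
      · rw [if_neg hfP, hP.four f hf hfP]
        norm_num
    rw [h1, sum_ite_mem, inter_eq_right.2 hP.sub]
    simp
  have hv := hVal V G M o L P g hmin R 7 w (by norm_num) hbd hoR (Ps.image c') ∅ hWsub hnonempty
    hbip (empty_subset _) (by simp) (by simp) (by simp)
  have h2 := htwo c hc1 hc3
  rw [← himg] at h2
  rw [hsum, hcard] at hv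
  have h2' : (2 : ℤ) ≤ (eBt G (Ps.image c') (inV M R)ᶜ : ℕ) := by exact_mod_cast h2
  have hW' : ((Ps.image c').card : ℤ) ≤ Ps.card := by exact_mod_cast hWcard
  have hch : (0 : ℤ) ≤ ((chd M R).card : ℤ) := by positivity
  push_cast at hv
  simp only [card_empty, Nat.cast_zero] at hv
  linarith

end BadD
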