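import Pool.Agent.Lib.MP_86b854_co.Bad.Spec

set_option autoImplicit false

/-!
# MP_86b854_co : there are no bad discs
-/

namespace BadD

open PLM T72 C7 Finset Equiv

theorem tNoBad (hS : S_Step) : S_NoBad := by
  intro V _ _ G _ M o L P g hM
  have key : ∀ n, ∀ (R Ps : Finset (Fc M)) (w : ZMod 7 → V), Ps.card = n → o ∉ R → Bd M R 7 w →
      Pent M R Ps → Ps.Nonempty → False := by
    intro n
    induction n using Nat.strong_induction_on with
    | _ n ih =>
      intro R Ps w hn ho hb hp hne
      obtain ⟨R', Ps', w', ho', hb', hp', hne', hlt⟩ := hS V G M o L P g hM R Ps w ho hb hp hne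
      exact ih _ (hn ▸ hlt) R' Ps' w' rfl ho' hb' hp' hne'
  exact fun R Ps w => key _ R Ps w rfl

end BadD
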