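import Pool.Agent.Lib.MP_86b854_co.Bad.Spec
import Pool.Agent.Lib.MP_86b854_co.D.FaceLen

set_option autoImplicit false

/-!
# MP_86b854_co : the pentagons have five different vertices
-/

namespace BadD

open PLM T72 C7 Finset Equiv

namespace PentA

variable {V : Type} [Fintype V] [DecidableEq V] {G : SimpleGraph V} [DecidableRel G.Adj]

open FaceLenAux

theorem inj {M : CMap G.Dart V} (hM : PlaneMap M) (htri : G.CliqueFree 3) (f : Fc M)
    (hf : len M f = 5) (d e : G.Dart) (hd : fc M d = f) (he : fc M e = f) (h : d.fst = e.fst) :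
    d = e := by
  classical
  have h01 : ∀ x : G.Dart, M.φ x ≠ x := by
    intro x h
    have h1 := phi_fst hM x
    rw [h] at h1
    exact x.fst_ne_snd h1
  have hsup : (M.φ.cycleOf d).support = univ.filter fun x => fc M x = f := by
    ext x
    rw [Perm.mem_support_cycleOf_iff, mem_filter, ← hd, eq_comm (a := fc M x), fc_eq_iff]
    constructor
    · intro h
      exact ⟨mem_univ _, h.1⟩
    · intro h
      exact ⟨h.2, Perm.mem_support.mpr (h01 d)⟩
  have hcard : (M.φ.cycleOf d).support.card = 5 := by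
    rw [hsup]
    unfold len at hf
    exact hf
  have hsc : M.φ.SameCycle d e := by
    rw [← fc_eq_iff, hd, he]
  have hper : (M.φ ^ 5) d = d := by
    have h1 := (Perm.isCycle_cycleOf M.φ (h01 d)).orderOf
    rw [hcard] at h1
    rw [← Perm.cycleOf_pow_apply_self, ← h1, pow_orderOf_eq_one, Perm.one_apply]
  obtain ⟨i, hi, hie⟩ := hsc.exists_pow_eq_of_mem_support (Perm.mem_support.mpr (h01 d))
  rw [hcard] at hi
  have hper' : M.φ (M.φ (M.φ (M.φ (M.φ d)))) = d := by
    have e5 : (M.φ ^ 5) d = M.φ (M.φ (M.φ (M.φ (M.φ d)))) := by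
      simp only [pow_succ, pow_zero, one_mul, Perm.mul_apply]
    rw [← e5]
    exact hper
  have adj : ∀ x : G.Dart, G.Adj x.fst (M.φ x).fst := by
    intro x
    rw [phi_fst hM]
    exact x.adj
  have a0 := adj d
  have a1 := adj (M.φ d)
  have a2 := adj (M.φ (M.φ d))
  have a3 := adj (M.φ (M.φ (M.φ d)))
  have a4 := adj (M.φ (M.φ (M.φ (M.φ d))))
  rw [hper'] at a4
  have tri : ∀ a b c : V, G.Adj a b → G.Adj b c → G.Adj c a → False := by
    intro a b c hab hbc hca
    apply htri {a, b, c}
    rw [SimpleGraph.is3Clique_triple_iff]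
    exact ⟨hab, hca.symm, hbc⟩
  have hi' : i = 0 ∨ i = 1 ∨ i = 2 ∨ i = 3 ∨ i = 4 := by omega
  rcases hi' with rfl | rfl | rfl | rfl | rfl
  · rw [pow_zero] at hie
    exact hie
  · exfalso
    rw [pow_one] at hie
    rw [hie, ← h] at a0
    exact G.loopless.irrefl _ a0
  · exfalso
    have e2 : M.φ (M.φ d) = e := by
      rw [← hie]
      simp only [pow_succ, pow_zero, one_mul, Perm.mul_apply]
    rw [e2] at a2 a3 a4
    rw [← h] at a2
    exact tri _ _ _ a2 a3 a4
  · exfalso
    have e3 : M.φ (M.φ (M.φ d)) = e := by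
      rw [← hie]
      simp only [pow_succ, pow_zero, one_mul, Perm.mul_apply]
    rw [e3, ← h] at a2
    exact tri _ _ _ a0 a1 a2
  · exfalso
    have e4 : M.φ (M.φ (M.φ (M.φ d))) = e := by
      rw [← hie]
      simp only [pow_succ, pow_zero, one_mul, Perm.mul_apply]
    rw [e4, ← h] at a4
    exact G.loopless.irrefl _ a4

end PentA

theorem tPentCard : S_PentCard := by
  classical
  intro V _ _ G _ M hM htri R Ps X hP
  have hU : aV M Ps X = (Ps \ X).biUnion
      (fun f => (univ.filter fun d : G.Dart => fc M d = f).image (fun d => d.fst)) := by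
    ext v
    simp only [aV, mem_filter, mem_univ, true_and, mem_biUnion, mem_sdiff, mem_image, Inc]
    constructor
    · rintro ⟨f, h1, h2, d, h3, h4⟩
      exact ⟨f, ⟨h1, h2⟩, d, h4, h3⟩
    · rintro ⟨f, ⟨h1, h2⟩, d, h4, h3⟩
      exact ⟨f, h1, h2, d, h3, h4⟩
  rw [hU, card_biUnion]
  · rw [sum_congr rfl (g := fun _ => 5), sum_const, smul_eq_mul, mul_comm]
    intro f hf
    have hf5 := hP.five f (mem_sdiff.mp hf).1
    rw [card_image_of_injOn]
    · unfold len at hf5
      exact hf5
    · intro d hd e he h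
      have hd := (mem_filter.mp (mem_coe.mp hd)).2
      have he := (mem_filter.mp (mem_coe.mp he)).2
      exact PentA.inj hM htri f hf5 d e hd he h
  · intro f hf f' hf' hne
    show Disjoint _ _
    rw [disjoint_left]
    intro v hv hv'
    obtain ⟨d, hd, hdv⟩ := mem_image.mp hv
    obtain ⟨e, he, hev⟩ := mem_image.mp hv'
    apply hne
    exact hP.disj f (mem_sdiff.mp hf).1 f' (mem_sdiff.mp hf').1 v
      ⟨d, hdv, (mem_filter.mp hd).2⟩ ⟨e, hev, (mem_filter.mp he).2⟩

end BadD
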