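import Pool.Agent.Lib.MP_86b854_co.Bad.RegBas
import Pool.Agent.Lib.MP_86b854_co.D.DiscEuler

set_option autoImplicit false
set_option linter.unusedSectionVars false

/-!
# MP_86b854_co : the inequality from Euler's formula for the regions `regs M Ps X`
-/

namespace BadD

open PLM T72 C7 Finset Equiv

namespace RegI

open C7.Bas Ato Reg

variable {V : Type} [Fintype V] [DecidableEq V] {G : SimpleGraph V} [DecidableRel G.Adj]
  {M : CMap G.Dart V} {R Ps X : Finset (Fc M)}

open Classical in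
/-- the component of a vertex -/
noncomputable def qV (A : Finset V) (v : V) : Option {v : V // v ∈ A} :=
  if h : v ∈ A then some ⟨v, h⟩ else none

theorem qV_none {A : Finset V} {v : V} (h : v ∉ A) : qV A v = none := dif_neg h

theorem ncmp_ge {A : Finset V} {H : Finset G.Dart} (hH : ∀ d ∈ H, d.fst ∉ A ∧ d.snd ∉ A)
    (hx : ∃ x, x ∉ A) : A.card + 1 ≤ ncmp H := by
  classical
  have h1 : Function.Surjective (Quotient.lift (s := cmpS H) (qV A) (by
      intro a b hab
      exact (hab {x | qV A a = qV A x} fun d hd => by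
        change qV A a = qV A d.fst ↔ qV A a = qV A d.snd
        rw [qV_none (hH d hd).1, qV_none (hH d hd).2]).1 rfl)) := by
    intro b
    cases b with
    | none =>
      obtain ⟨x, hx⟩ := hx
      exact ⟨Quotient.mk _ x, qV_none hx⟩
    | some v => exact ⟨Quotient.mk _ v.1, dif_pos v.2⟩
  have hfin : Finite (Quotient (cmpS H)) := Quotient.finite _
  have h2 := Nat.card_le_card_of_surjective _ h1
  rw [Nat.card_eq_fintype_card, Fintype.card_option, Fintype.card_coe] at h2
  exact h2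

open Classical in
/-- the faces which touch `aV` -/
noncomputable def tau (M : CMap G.Dart V) (Ps X : Finset (Fc M)) : Finset (Fc M) :=
  univ.filter fun f => Tch M (aV M Ps X) f

theorem mem_tau {f : Fc M} : f ∈ tau M Ps X ↔ Tch M (aV M Ps X) f := by
  simp [tau]

theorem ncls_eq (hM : PlaneMap M) :
    ncls M (Hd M Ps X) = (regs M Ps X).card + (Fintype.card (Fc M) - (tau M Ps X).card) := by
  classical
  rw [← card_atoms, ← card_filter_add_card_filter_not (s := atoms M (Hd M Ps X))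
    (fun ρ => ∃ f ∈ ρ, Tch M (aV M Ps X) f)]
  have h1 : (atoms M (Hd M Ps X)).filter (fun ρ => ∃ f ∈ ρ, Tch M (aV M Ps X) f) =
      regs M Ps X := by
    ext ρ
    rw [mem_regs, mem_filter]
  have h2 : (atoms M (Hd M Ps X)).filter (fun ρ => ¬ ∃ f ∈ ρ, Tch M (aV M Ps X) f) =
      (univ \ tau M Ps X).image fun f => ({f} : Finset (Fc M)) := by
    ext ρ
    rw [mem_filter, mem_image]
    constructor
    · rintro ⟨h3, h4⟩
      obtain ⟨f, hf⟩ := (mem_atoms.1 h3).1
      have h5 : ¬ Tch M (aV M Ps X) f := fun h6 => h4 ⟨f, hf, h6⟩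
      refine ⟨f, mem_sdiff.2 ⟨mem_univ _, fun h6 => h5 (mem_tau.1 h6)⟩, ?_⟩
      have h6 := sub_of_mem h3 (cl_single hM h5) hf (mem_singleton_self f)
      exact (subset_antisymm h6 (singleton_subset_iff.2 hf)).symm
    · rintro ⟨f, hf, rfl⟩
      have h5 : ¬ Tch M (aV M Ps X) f := fun h6 => (mem_sdiff.1 hf).2 (mem_tau.2 h6)
      refine ⟨mem_atoms.2 ⟨⟨f, mem_singleton_self f⟩, cl_single hM h5, ?_⟩, ?_⟩
      · intro ρ' h6 h7 _
        rcases subset_singleton_iff.1 h6 with h8 | h8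
        · exact absurd h8 h7.ne_empty
        · exact h8
      · rintro ⟨g, hg, h6⟩
        exact h5 (mem_singleton.1 hg ▸ h6)
  have h1' : ((atoms M (Hd M Ps X)).filter (fun ρ => ∃ f ∈ ρ, Tch M (aV M Ps X) f)).card =
      (regs M Ps X).card := by rw [h1]
  have h2' : ((atoms M (Hd M Ps X)).filter
      (fun ρ => ¬ ∃ f ∈ ρ, Tch M (aV M Ps X) f)).card =
      Fintype.card (Fc M) - (tau M Ps X).card := by
    rw [h2, card_image_of_injective _ (fun a b h => by simpa using h),
      card_sdiff_of_subset (subset_univ _), card_univ]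
  omega

theorem tau_inter (hP : Pent M R Ps) : tau M Ps X ∩ Ps = Ps \ X := by
  ext f
  rw [mem_inter, mem_sdiff, mem_tau]
  constructor
  · rintro ⟨h1, h2⟩
    exact ⟨h2, (tch_pent hP h2).1 h1⟩
  · rintro ⟨h1, h2⟩
    exact ⟨(tch_pent hP h1).2 h2, h1⟩

theorem tau_sdiff (hP : Pent M R Ps) :
    (tau M Ps X \ Ps).card + qX M R Ps X = (R \ Ps).card := by
  classical
  rw [← card_filter_add_card_filter_not (s := R \ Ps) (fun f => Tch M (aV M Ps X) f)]
  congr 1
  · congr 1
    ext f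
    rw [mem_sdiff, mem_filter, mem_sdiff, mem_tau]
    constructor
    · rintro ⟨h1, h2⟩
      exact ⟨⟨tch_mem hP h1, h2⟩, h1⟩
    · rintro ⟨⟨h1, h2⟩, h3⟩
      exact ⟨h3, h2⟩
  · unfold qX
    congr 1
    ext f
    rw [mem_filter, mem_filter, mem_sdiff]
    tauto

theorem sum_tau (hP : Pent M R Ps) :
    ∑ f ∈ tau M Ps X, len M f = 5 * (tau M Ps X ∩ Ps).card + 4 * (tau M Ps X \ Ps).card := by
  rw [← sum_inter_add_sum_sdiff (tau M Ps X) Ps]
  congr 1
  · rw [sum_congr rfl fun f hf => hP.five f (mem_inter.1 hf).2, sum_const, smul_eq_mul, mul_comm]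
  · rw [sum_congr rfl fun f hf => hP.four f (tch_mem hP (mem_tau.1 (mem_sdiff.1 hf).1))
      (mem_sdiff.1 hf).2, sum_const, smul_eq_mul, mul_comm]

theorem sum_R (hP : Pent M R Ps) :
    ∑ f ∈ R, len M f = 5 * Ps.card + 4 * (R \ Ps).card := by
  rw [← sum_inter_add_sum_sdiff R Ps, inter_eq_right.2 hP.sub]
  congr 1
  · rw [sum_congr rfl fun f hf => hP.five f hf, sum_const, smul_eq_mul, mul_comm]
  · rw [sum_congr rfl fun f hf => hP.four f (mem_sdiff.1 hf).1
      (mem_sdiff.1 hf).2, sum_const, smul_eq_mul, mul_comm]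

/-- the darts outside of `Hd` and the boundary darts of the regions -/
theorem darts_le (hM : PlaneMap M) :
    (Fintype.card G.Dart - (Hd M Ps X).card) + ∑ ρ ∈ regs M Ps X, (bd M ρ).card ≤
      ∑ f ∈ tau M Ps X, len M f := by
  classical
  rw [sum_len, ← card_univ, ← card_sdiff_of_subset (subset_univ _), ← card_biUnion,
    ← card_union_of_disjoint]
  · apply card_le_card
    intro d hd
    rw [mem_filter]
    refine ⟨mem_univ _, ?_⟩
    rw [mem_tau]
    rcases mem_union.1 hd with h | h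
    · exact tch_of_notin hM (mem_sdiff.1 h).2
    · obtain ⟨ρ, h1, h2⟩ := mem_biUnion.1 h
      exact tch_all hM h1 _ (mem_bd.1 h2).1
  · rw [Finset.disjoint_left]
    intro d h1 h2
    obtain ⟨ρ, h3, h4⟩ := mem_biUnion.1 h2
    obtain ⟨h5, h6⟩ := mem_bd.1 h4
    exact h6 (((mem_atoms.1 (mem_regs.1 h3).1).2.1 d (mem_sdiff.1 h1).2).1 h5)
  · intro ρ h1 ρ' h2 hne
    rw [Function.onFun, Finset.disjoint_left]
    intro d h3 h4
    exact hne (eq_of_mem (mem_regs.1 h1).1 (mem_regs.1 h2).1 (mem_bd.1 h3).1 (mem_bd.1 h4).1)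

theorem aV_empty (hP : Pent M R Ps) : aV M Ps ∅ = inV M R := by
  apply subset_antisymm (aV_sub hP)
  intro v hv
  obtain ⟨f, h1, h2⟩ := hP.cover v hv
  exact mem_aV.2 ⟨f, h1, notMem_empty _, h2⟩

end RegI

open C7.Bas Ato Reg RegI in
theorem tRegIneq (h2 : S_PentCard) (h3 : C7.S_EulerSub) (h4 : C7.S_DiscEuler) : S_RegIneq := by
  intro V _ _ G _ M hM hG hT o R Ps X w ho hB hP hX
  -- (1)
  have e1 := h2 V G M hM hT R Ps ∅ hP
  rw [aV_empty hP, sdiff_empty] at e1
  have e2 := h4 V G M hM hG R 7 w (by omega) hB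
  have e3 := sum_R hP
  have e4 := card_sdiff_add_card_eq_card hP.sub
  -- (2)
  have hne : Nonempty G.Dart := ⟨bdart hB.2.1 0⟩
  have e5 := h3 V G M hM hG hne (Hd M Ps X) fun d hd => Hd_symm hd
  have e6 := h3 V G M hM hG hne univ fun d _ => mem_univ _
  rw [DEu.ncls_univ, DEu.ncmp_univ hG, card_univ] at e6
  have e7 : (aV M Ps X).card + 1 ≤ ncmp (Hd M Ps X) := by
    refine ncmp_ge (fun d hd => mem_Hd.1 hd) ⟨w 0, fun h => ?_⟩
    exact notin_symm_fst hM (mem_bd.1 (bdart_mem hB 0)).2 (aV_sub hP h)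
  have e8 := h2 V G M hM hT R Ps X hP
  have e9 := card_sdiff_add_card_eq_card hX
  -- (3)
  have e10 := ncls_eq (X := X) (Ps := Ps) hM
  have e11 : (tau M Ps X).card ≤ Fintype.card (Fc M) := card_le_univ _
  have e12 := card_inter_add_card_sdiff (tau M Ps X) Ps
  have e13 := tau_sdiff (X := X) hP
  have e14 := sum_tau (X := X) hP
  rw [tau_inter hP] at e12 e14
  have e15 := darts_le (X := X) (Ps := Ps) hM
  have e16 : (Hd M Ps X).card ≤ Fintype.card G.Dart := card_le_univ _
  omega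

end BadD
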