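import Pool.Agent.Lib.MP_86b854_co.Bad.RegBas

set_option autoImplicit false
set_option linter.unusedSectionVars false

/-!
# MP_86b854_co : properties of the regions `regs M Ps X`
-/

namespace BadD

open PLM T72 C7 Finset Equiv

namespace RegP

open C7.Bas Ato Reg

variable {V : Type} [Fintype V] [DecidableEq V] {G : SimpleGraph V} [DecidableRel G.Adj]
  {M : CMap G.Dart V} {R Ps X : Finset (Fc M)}

theorem notin_X (hM : PlaneMap M) (hP : Pent M R Ps) (hX : X ⊆ Ps) {ρ : Finset (Fc M)}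
    (hρ : ρ ∈ regs M Ps X) : ∀ f ∈ X, f ∉ ρ := by
  intro f hf h
  exact (tch_pent hP (hX hf)).1 (tch_all hM hρ f h) hf

theorem sub_R (hM : PlaneMap M) (hP : Pent M R Ps) {ρ : Finset (Fc M)}
    (hρ : ρ ∈ regs M Ps X) : ρ ⊆ R := fun f hf => tch_mem hP (tch_all hM hρ f hf)

theorem sum_eq (hP : Pent M R Ps) {ρ : Finset (Fc M)} (hρ : ρ ⊆ R) :
    ∑ f ∈ ρ, len M f = 5 * (ρ ∩ Ps).card + 4 * (ρ \ Ps).card := by
  rw [← sum_inter_add_sum_sdiff ρ Ps]
  congr 1
  · rw [sum_congr rfl fun f hf => hP.five f (mem_inter.1 hf).2, sum_const, smul_eq_mul, mul_comm]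
  · rw [sum_congr rfl fun f hf => hP.four f (hρ (mem_sdiff.1 hf).1) (mem_sdiff.1 hf).2, sum_const,
      smul_eq_mul, mul_comm]

theorem pent_sub (hM : PlaneMap M) (hP : Pent M R Ps) (hX : X ⊆ Ps) {ρ : Finset (Fc M)}
    (hρ : ρ ∈ regs M Ps X) : Pent M ρ (Ps ∩ ρ) := by
  have hsub := sub_R hM hP hρ
  refine ⟨inter_subset_right, fun f hf => hP.five f (mem_inter.1 hf).1, ?_, ?_, ?_, ?_⟩
  · intro f hf h
    exact hP.four f (hsub hf) fun h1 => h (mem_inter.2 ⟨h1, hf⟩)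
  · intro v hv
    have h1 : v ∈ inV M R := mem_inV.2 fun d hd => hsub (mem_inV.1 hv d hd)
    obtain ⟨f, hf, d, hd, rfl⟩ := hP.cover v h1
    exact ⟨_, mem_inter.2 ⟨hf, mem_inV.1 hv d hd⟩, d, hd, rfl⟩
  · rintro f hf v ⟨d, hd, rfl⟩
    obtain ⟨h1, h2⟩ := mem_inter.1 hf
    have h3 : fc M d ∉ X := fun h4 => notin_X hM hP hX hρ _ h4 h2
    have h4 : v ∈ aV M Ps X := mem_aV.2 ⟨_, h1, h3, d, hd, rfl⟩
    refine mem_inV.2 fun e he => ?_
    refine (corner hM (mem_atoms.1 (mem_regs.1 hρ).1).2.1 (v := v) ?_ d e hd he).1 h2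
    intro a ha h5
    exact (mem_Hd.1 h5).1 (ha ▸ h4)
  · intro f hf f' hf' v h1 h2
    exact hP.disj f (mem_inter.1 hf).1 f' (mem_inter.1 hf').1 v h1 h2

end RegP

open C7.Bas Ato Reg RegP in
theorem tRegProp (h2 : S_BdNe) (h3 : C7.S_ShortBd) (h4 : C7.S_Parity) : S_RegProp := by
  intro V _ _ G _ M o L P g hD R Ps X w ho hB hP hX ρ hρ
  have hM := hD.plane
  have hsub := sub_R hM hP hρ
  have hne : ρ.Nonempty := (mem_atoms.1 (mem_regs.1 hρ).1).1
  have hoρ : o ∉ ρ := fun h => ho (hsub h)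
  have hbd : (bd M ρ).Nonempty := h2 V G M hM hD.conn o ρ hoρ hne
  have hcard : (bd M ρ).card ≠ 0 := by
    rw [Ne, card_eq_zero]
    exact hbd.ne_empty
  have h4le : 4 ≤ (bd M ρ).card := by
    by_cases h : (bd M ρ).card ≤ 7
    · exact (h3 V G M hM hD.tri ρ _ rfl hcard h).1
    · omega
  have hpar : (bd M ρ).card % 2 = (ρ ∩ Ps).card % 2 := by
    obtain ⟨e, he⟩ := h4 V G M ρ
    rw [sum_eq hP hsub] at he
    omega
  refine ⟨hsub, tch_all hM hρ, notin_X hM hP hX hρ, h4le, ?_, hpar⟩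
  intro hodd
  have hodd' := Nat.odd_iff.1 hodd
  constructor
  · by_contra hlt
    have hle : (bd M ρ).card ≤ 5 := by omega
    rcases hD.nosep ρ hoρ hne hle with h1 | h1
    · obtain ⟨f, hf⟩ := card_eq_one.1 h1
      have hfP : f ∈ Ps := by
        by_contra h5
        have h6 : ρ ∩ Ps = ∅ := by
          rw [hf]
          exact singleton_inter_of_notMem h5
        rw [h6] at hodd'
        simp at hodd'
      have hfρ : f ∈ ρ := by
        rw [hf]
        exact mem_singleton_self f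
      have hfX : f ∉ X := fun h5 => notin_X hM hP hX hρ f h5 hfρ
      obtain ⟨d, hd⟩ := hbd
      obtain ⟨h5, h6⟩ := mem_bd.1 hd
      apply h6
      have h7 : d ∉ Hd M Ps X := by
        intro h8
        have h9 : fc M d = f := by
          rw [hf] at h5
          exact mem_singleton.1 h5
        exact (mem_Hd.1 h8).1 (mem_aV.2 ⟨f, hfP, hfX, d, rfl, h9⟩)
      exact ((mem_atoms.1 (mem_regs.1 hρ).1).2.1 d h7).1 h5
    · have h5 : R = ρ := by
        apply subset_antisymm _ hsub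
        intro f hf
        rw [h1]
        exact mem_sdiff.2 ⟨mem_univ _, fun h6 => ho (mem_singleton.1 h6 ▸ hf)⟩
      have h6 := bd_card (by omega) hB
      rw [h5] at h6
      omega
  · intro h7
    exact ⟨pent_sub hM hP hX hρ, (h3 V G M hM hD.tri ρ 7 h7 (by omega) le_rfl).2⟩

end BadD
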