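import Pool.Agent.Lib.MP_86b854_co.Bad.Spec

set_option autoImplicit false

/-!
# MP_86b854_co : the selected vertices are an odd cycle transversal (`S_Sel`)
-/

namespace BadD

open PLM T72 C7 Finset Equiv

private lemma sel_fc_phi {V : Type} [Fintype V] [DecidableEq V] {G : SimpleGraph V}
    [DecidableRel G.Adj] (M : CMap G.Dart V) (d : G.Dart) : fc M (M.φ d) = fc M d := by
  unfold fc
  apply Quotient.sound
  exact Perm.sameCycle_apply_left.2 (Perm.SameCycle.refl _ _)

private lemma sel_sigma_fst {V : Type} [Fintype V] [DecidableEq V] {G : SimpleGraph V}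
    [DecidableRel G.Adj] {M : CMap G.Dart V} (hM : PlaneMap M) (d : G.Dart) :
    (M.σ d).fst = d.fst := by
  have h : M.vt (M.σ d) = M.vt d := by
    rw [M.hv]
    exact Perm.sameCycle_apply_left.2 (Perm.SameCycle.refl _ _)
  rw [hM.1, hM.1] at h
  exact h

private lemma sel_phi_fst {V : Type} [Fintype V] [DecidableEq V] {G : SimpleGraph V}
    [DecidableRel G.Adj] {M : CMap G.Dart V} (hM : PlaneMap M) (d : G.Dart) :
    (M.φ d).fst = d.snd := by
  rw [CMap.φ_apply, hM.2.1, sel_sigma_fst hM]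
  rfl

theorem tSel (hBip : S_BipBd) (hNest : C7.S_Nest) (hPar : C7.S_Parity) (hCor : C7.S_Corner) :
    S_Sel := by
  intro V _ _ G _ M hM hconn o R Ps w ho hbd hpent c m hc hm hne heq
  classical
  refine hBip V G M hM o (inV M R \ Ps.image c) ?_
  intro R' ho' hb
  have hinV : ∀ v, v ∈ inV M R ↔ ∀ d : G.Dart, d.fst = v → fc M d ∈ R := by
    intro v
    unfold inV
    rw [Finset.mem_filter]
    exact ⟨fun h => h.2, fun h => ⟨Finset.mem_univ _, h⟩⟩
  have hsub : R' ⊆ R := by
    refine hNest V G M hM hconn o R R' 7 w (by norm_num) hbd ho ho' ?_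
    intro d hd
    left
    have h1 := (Finset.mem_sdiff.1 (hb d hd).1).1
    exact (hinV _).1 h1 d rfl
  -- all corners at a chosen vertex have the same status
  have hst : ∀ f ∈ Ps, ∀ h1 h2, Inc M (c f) h1 → Inc M (c f) h2 → h1 ∈ R' → h2 ∈ R' := by
    rintro f hf h1 h2 ⟨d, hd, rfl⟩ ⟨e, he, rfl⟩ h3
    refine (((hCor V G M hM R' (c f)).2 ?_ d e hd he).1 h3)
    intro x hx hxc
    have h4 := (Finset.mem_sdiff.1 (hb x hx).1).2
    apply h4
    rw [hxc]
    exact Finset.mem_image_of_mem c hf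
  have hfix : ∀ f ∈ Ps, f ∈ R' → m f ≠ f := by
    intro f hf hfR hmf
    obtain ⟨u, hu, hadj⟩ := heq f hf hmf
    apply hu
    have h1 : fc M (⟨(c f, u), hadj⟩ : G.Dart) ∈ R' :=
      hst f hf f _ (hc f hf) ⟨_, rfl, rfl⟩ hfR
    have h2 : fc M (M.φ (⟨(c f, u), hadj⟩ : G.Dart)) ∈ R' := by
      rw [sel_fc_phi]
      exact h1
    have h3 : (M.φ (⟨(c f, u), hadj⟩ : G.Dart)).fst = u := by
      rw [sel_phi_fst hM]
    rw [hinV]
    intro d hd
    apply hsub
    by_contra hdR
    have h5 : ∃ x ∈ bd M R', x.fst = u := by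
      by_contra hno
      push Not at hno
      exact hdR (((hCor V G M hM R' u).2 hno _ d h3 hd).1 h2)
    obtain ⟨x, hx, hxu⟩ := h5
    have h6 := (Finset.mem_sdiff.1 (hb x hx).1).1
    rw [hxu] at h6
    exact hu h6
  have hmR : ∀ f ∈ Ps, f ∈ R' → m f ∈ R' := by
    intro f hf hfR
    obtain ⟨h, h1, h2⟩ := hne f hf (hfix f hf hfR)
    have h3 : h ∈ R' := hst f hf f h (hc f hf) h1 hfR
    exact hst (m f) (hm f hf).1 h (m f) h2 (hc _ (hm f hf).1) h3
  have hev : Even (R'.filter fun f => f ∈ Ps).card := by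
    have h1 : (∑ f ∈ R'.filter (fun f => f ∈ Ps), (1 : ZMod 2)) = 0 := by
      refine Finset.sum_involution (fun f _ => m f) ?_ ?_ ?_ ?_
      · intro f _
        decide
      · intro f hf _
        exact hfix f (Finset.mem_filter.1 hf).2 (Finset.mem_filter.1 hf).1
      · intro f hf
        have hf' := Finset.mem_filter.1 hf
        exact Finset.mem_filter.2 ⟨hmR f hf'.2 hf'.1, (hm f hf'.2).1⟩
      · intro f hf
        exact (hm f (Finset.mem_filter.1 hf).2).2
    rw [Finset.sum_const, nsmul_eq_mul, mul_one] at h1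
    exact (ZMod.natCast_eq_zero_iff_even).1 h1
  obtain ⟨e, he⟩ := hPar V G M R'
  have hsum : ∑ f ∈ R', len M f =
      5 * (R'.filter fun f => f ∈ Ps).card + 4 * (R'.filter fun f => ¬ f ∈ Ps).card := by
    rw [← Finset.sum_filter_add_sum_filter_not R' (fun f => f ∈ Ps)]
    congr 1
    · rw [Finset.sum_congr rfl (fun f hf => hpent.five f (Finset.mem_filter.1 hf).2),
        Finset.sum_const, smul_eq_mul, mul_comm]
    · rw [Finset.sum_congr rfl (fun f hf => hpent.four f (hsub (Finset.mem_filter.1 hf).1)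
        (Finset.mem_filter.1 hf).2), Finset.sum_const, smul_eq_mul, mul_comm]
  obtain ⟨a, ha⟩ := hev
  rw [hsum, ha] at he
  refine ⟨5 * a + 2 * (R'.filter fun f => ¬ f ∈ Ps).card - e, ?_⟩
  omega

end BadD
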