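import Pool.Agent.Lib.MP_86b854_co.Bad.Spec

set_option autoImplicit false

/-!
# MP_86b854_co : bad discs, the descent step
-/

namespace BadD

open PLM T72 C7 Finset Equiv

namespace StepAux

variable {V : Type} [Fintype V] [DecidableEq V] {G : SimpleGraph V} [DecidableRel G.Adj]

theorem bd_card {M : CMap G.Dart V} {R : Finset (Fc M)} {w : ZMod 7 → V} (h : Bd M R 7 w) :
    (bd M R).card = 7 := by
  classical
  let e : ZMod 7 → G.Dart := fun i => ⟨(w i, w (i + 1)), h.2.1 i⟩
  have he : Function.Injective e := by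
    intro i j hij
    have h2 : (e i).fst = (e j).fst := by rw [hij]
    exact h.1 h2
  have h1 : bd M R = univ.image e := by
    ext d
    rw [h.2.2 d, mem_image]
    constructor
    · rintro ⟨i, h1, h2⟩
      refine ⟨i, mem_univ _, ?_⟩
      apply SimpleGraph.Dart.ext
      exact Prod.ext h1.symm h2.symm
    · rintro ⟨i, _, rfl⟩
      exact ⟨i, rfl, rfl⟩
  rw [h1, card_image_of_injective _ he, card_univ, ZMod.card]

theorem sum_lower {α : Type} (s : Finset α) (p : α → Prop) [DecidablePred p] (f : α → ℕ) (b : ℕ)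
    (h1 : ∀ x ∈ s, p x → b ≤ f x) (h2 : ∀ x ∈ s, 4 ≤ f x) :
    b * (s.filter p).card + 4 * s.card ≤ (∑ x ∈ s, f x) + 4 * (s.filter p).card := by
  have h3 : (s.filter p).card + (s.filter fun x => ¬ p x).card = s.card :=
    card_filter_add_card_filter_not (s := s) p
  have h4 : ∑ x ∈ s.filter p, f x + ∑ x ∈ s.filter (fun x => ¬ p x), f x = ∑ x ∈ s, f x :=
    sum_filter_add_sum_filter_not s p f
  have h5 : (s.filter p).card • b ≤ ∑ x ∈ s.filter p, f x :=
    card_nsmul_le_sum _ _ _ fun x hx => h1 x (mem_filter.1 hx).1 (mem_filter.1 hx).2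
  have h6 : (s.filter fun x => ¬ p x).card • 4 ≤ ∑ x ∈ s.filter (fun x => ¬ p x), f x :=
    card_nsmul_le_sum _ _ _ fun x hx => h2 x (mem_filter.1 hx).1
  rw [smul_eq_mul] at h5 h6
  rw [mul_comm] at h5
  rw [← h4, ← h3]
  omega

end StepAux

open StepAux in
theorem tStep (hRI : S_RegIneq) (hRP : S_RegProp) (hFam : S_Fam) (hC0 : S_Conn0) (hQ : S_Quads7)
    (hFin : S_Fin) (hPar : S_Parity) (hDeg : S_MinDeg) : S_Step := by
  classical
  intro V _ _ G _ M o L P g hM R Ps w ho hb hp hne
  by_contra hno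
  push Not at hno
  have hbd : (bd M R).card = 7 := bd_card hb
  -- (0) the number of pentagons is odd
  have hodd : Odd Ps.card := by
    obtain ⟨e, he⟩ := hPar V G M R
    have h1 : ∑ f ∈ R, len M f = 5 * Ps.card + 4 * (R \ Ps).card := by
      rw [← sum_sdiff hp.sub, add_comm]
      congr 1
      · rw [sum_congr rfl fun f hf => hp.five f hf, sum_const, smul_eq_mul, mul_comm]
      · rw [sum_congr rfl fun f hf => hp.four f (mem_sdiff.1 hf).1 (mem_sdiff.1 hf).2, sum_const,
          smul_eq_mul, mul_comm]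
    rw [Nat.odd_iff]
    omega
  set ι : {f // f ∈ Ps} ↪ Fc M := ⟨Subtype.val, Subtype.val_injective⟩ with hι
  have hcard : Fintype.card {f // f ∈ Ps} = Ps.card := Fintype.card_coe Ps
  have hoddι : Odd (Fintype.card {f // f ∈ Ps}) := by rw [hcard]; exact hodd
  have hsub : ∀ X : Finset {f // f ∈ Ps}, X.map ι ⊆ Ps := by
    intro X f hf
    obtain ⟨a, _, rfl⟩ := mem_map.1 hf
    exact a.2
  -- the general inequality
  have hgen : ∀ X : Finset {f // f ∈ Ps}, ∀ b : ℕ,
      (∀ ρ ∈ regs M Ps (X.map ι), Odd (ρ ∩ Ps).card → b ≤ (bd M ρ).card) →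
      b * ((regs M Ps (X.map ι)).filter fun ρ => Odd (ρ ∩ Ps).card).card +
        2 * (regs M Ps (X.map ι)).card + 2 * qX M R Ps (X.map ι) ≤
        7 * X.card + 5 + 4 * ((regs M Ps (X.map ι)).filter fun ρ => Odd (ρ ∩ Ps).card).card := by
    intro X b hb'
    have h1 := hRI V G M hM.plane hM.conn hM.tri o R Ps (X.map ι) w ho hb hp (hsub X)
    have h2 := sum_lower (regs M Ps (X.map ι)) (fun ρ => Odd (ρ ∩ Ps).card)
      (fun ρ => (bd M ρ).card) b hb'
      (fun ρ hρ => (hRP V G M o L P g hM R Ps (X.map ι) w ho hb hp (hsub X) ρ hρ).2.2.2.1)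
    rw [card_map] at h1
    omega
  -- (1) `X = ∅`
  have hemp : (∅ : Finset {f // f ∈ Ps}).map ι = ∅ := map_empty _
  have h0odd : 1 ≤ ((regs M Ps ∅).filter fun ρ => Odd (ρ ∩ Ps).card).card := by
    have h1 : OddFam (pg M Ps) ∅ {univ} := by
      refine ⟨?_, ?_, ?_, ?_⟩
      · intro Q hQ'
        rw [mem_singleton.1 hQ', card_univ]
        exact hoddι
      · intro Q _
        exact disjoint_empty_right _
      · intro Q hQ' p _ q _ _
        rw [mem_singleton.1 hQ']
        exact mem_univ _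
      · intro Q hQ' Q' hQ'' hne'
        exact absurd ((mem_singleton.1 hQ').trans (mem_singleton.1 hQ'').symm) hne'
    have h2 := hFam V G M hM.plane R Ps hp ∅ {univ} h1
    rw [card_singleton] at h2
    exact h2
  have hreg0 : (regs M Ps ∅).card ≤ 1 ∧ qX M R Ps ∅ = 0 := by
    have h1 := hgen ∅ 7 (by
      intro ρ hρ hodd'
      rw [hemp] at hρ
      exact ((hRP V G M o L P g hM R Ps ∅ w ho hb hp (empty_subset _) ρ hρ).2.2.2.2.1 hodd').1)
    rw [hemp, card_empty] at h1
    have h2 : ((regs M Ps ∅).filter fun ρ => Odd (ρ ∩ Ps).card).card ≤ (regs M Ps ∅).card :=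
      card_filter_le _ _
    omega
  have haV : aV M Ps ∅ = inV M R := by
    ext v
    unfold aV
    rw [mem_filter]
    constructor
    · rintro ⟨_, f, hf, _, hv⟩
      exact hp.inner f hf v hv
    · intro hv
      obtain ⟨f, hf, hvf⟩ := hp.cover v hv
      exact ⟨mem_univ _, f, hf, notMem_empty _, hvf⟩
  have hInc : ∀ f : Fc M, ∃ v, Inc M v f := by
    intro f
    obtain ⟨d, rfl⟩ := Quotient.exists_rep f
    exact ⟨d.fst, d, rfl, rfl⟩
  have htch : ∀ f ∈ R, Tch M (inV M R) f := by
    intro f hf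
    by_cases hfP : f ∈ Ps
    · obtain ⟨v, hv⟩ := hInc f
      exact ⟨v, hp.inner f hfP v hv, hv⟩
    · by_contra hcon
      have h1 := hreg0.2
      unfold qX at h1
      rw [card_eq_zero, haV] at h1
      have h2 : f ∈ R.filter fun f => f ∉ Ps ∧ ¬ Tch M (inV M R) f :=
        mem_filter.2 ⟨hf, hfP, hcon⟩
      rw [h1] at h2
      exact notMem_empty _ h2
  have h0 : ∀ Q : Finset {f // f ∈ Ps}, Q.Nonempty →
      (∀ p ∈ Q, ∀ q, (pg M Ps).Adj p q → q ∈ Q) → Q = univ :=
    hC0 V G M hM.plane R Ps hp hreg0.1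
  -- (2) `X ≠ ∅`
  have h2 : ∀ X : Finset {f // f ∈ Ps}, X.Nonempty → ∀ F, OddFam (pg M Ps) X F →
      7 * F.card + 2 * qX M R Ps (X.map ι) ≤ 7 * X.card + 5 := by
    intro X hX F hF
    have h3 := hgen X 9 (by
      intro ρ hρ hodd'
      have h4 := hRP V G M o L P g hM R Ps (X.map ι) w ho hb hp (hsub X) ρ hρ
      obtain ⟨h5, h6⟩ := h4.2.2.2.2.1 hodd'
      have h7 : (bd M ρ).card ≠ 7 := by
        intro h8
        obtain ⟨h9, w', hw'⟩ := h6 h8
        have hcomm : Ps ∩ ρ = ρ ∩ Ps := inter_comm _ _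
        have h10 : (Ps ∩ ρ).Nonempty := by
          rw [hcomm, ← card_pos]
          exact hodd'.pos
        have h11 := hno ρ (Ps ∩ ρ) w' (fun hoρ => ho (h4.1 hoρ)) hw' h9 h10
        obtain ⟨a, ha⟩ := hX
        have h12 : (Ps ∩ ρ).card < Ps.card := by
          apply card_lt_card
          refine ⟨inter_subset_left, fun hsub' => ?_⟩
          have h13 := (mem_inter.1 (hsub' a.2)).2
          exact h4.2.2.1 a (mem_map.2 ⟨a, ha, rfl⟩) h13
        omega
      have h8 := h4.2.2.2.2.2
      rw [Nat.odd_iff] at hodd'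
      omega)
    have h4 : F.card ≤ ((regs M Ps (X.map ι)).filter fun ρ => Odd (ρ ∩ Ps).card).card :=
      hFam V G M hM.plane R Ps hp X F hF
    have h5 : ((regs M Ps (X.map ι)).filter fun ρ => Odd (ρ ∩ Ps).card).card ≤
      (regs M Ps (X.map ι)).card := card_filter_le _ _
    omega
  have h1 : ∀ X : Finset {f // f ∈ Ps}, X.Nonempty → ∀ F, OddFam (pg M Ps) X F →
      F.card + 1 ≤ X.card := by
    intro X hX
    have h3 := oddFam_parity (K := pg M Ps) (X := X) (c := 0) hoddι (by decide) (by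
      intro F hF
      have h4 := h2 X hX F hF
      omega)
    intro F hF
    have h4 := h3 F hF
    omega
  -- the cases
  by_cases hcase : ∃ x ∈ inV M R, ∃ u u', G.Adj x u ∧ G.Adj x u' ∧ u ∉ inV M R ∧ u' ∉ inV M R ∧
      u ≠ u'
  · obtain ⟨x, hx, u, u', hxu, hxu', hu, hu', huu⟩ := hcase
    obtain ⟨f₀, hf₀, hxf₀⟩ := hp.cover x hx
    obtain ⟨m, hm1, hm2, hm3, hm4⟩ := matching_exits (pg M Ps) {⟨f₀, hf₀⟩} 1 hoddι (by decide) h0
      h1 (by
        intro X hX F hF
        exact h1 X ⟨_, hX (mem_singleton_self _)⟩ F hF)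
    refine hFin V G M o L P g hM R Ps w ho hb hp hne m (fun _ v => v = x) hm1
      (fun a ha => hm2 a ha) ?_ ?_ ?_
    · rintro a v rfl
      exact ⟨u, hu, hxu⟩
    · intro a ha
      have h3 := mem_singleton.1 (hm3 a ha)
      exact ⟨x, by rw [h3]; exact hxf₀, rfl⟩
    · intro c hc1 hc2
      obtain ⟨a, ha⟩ : (univ.filter fun p => m p = p).Nonempty := by
        rw [← card_pos, hm4]
        exact Nat.one_pos
      have hca := hc2 a (mem_filter.1 ha).2
      have h3 : ({(x, u), (x, u')} : Finset (V × V)) ⊆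
          ((univ.image c) ×ˢ (inV M R)ᶜ).filter fun p => G.Adj p.1 p.2 := by
        intro y hy
        rw [mem_insert, mem_singleton] at hy
        have h4 : x ∈ univ.image c := mem_image.2 ⟨a, mem_univ _, hca⟩
        rcases hy with rfl | rfl
        · exact mem_filter.2 ⟨mem_product.2 ⟨h4, mem_compl.2 hu⟩, hxu⟩
        · exact mem_filter.2 ⟨mem_product.2 ⟨h4, mem_compl.2 hu'⟩, hxu'⟩
      have h4 := card_le_card h3
      rw [card_pair (fun h => huu (Prod.ext_iff.1 h).2)] at h4
      exact h4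
  · push Not at hcase
    set B : Finset {f // f ∈ Ps} := univ.filter fun a => ∃ v u, Inc M v a ∧ G.Adj v u ∧
      u ∉ inV M R with hB
    have hqB : ∀ X : Finset {f // f ∈ Ps}, B ⊆ X → 7 ≤ qX M R Ps (X.map ι) := by
      intro X hX
      refine hQ V G M hM.plane R Ps (X.map ι) w hb hp htch ?_ ?_ ?_
      · intro v hv
        have hvP : v ∉ P := by
          intro hvP
          obtain ⟨d, hd1, hd2⟩ := (hM.outer v).1 hvP
          unfold inV at hv
          have h3 := (mem_filter.1 hv).2 d hd1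
          rw [hd2] at h3
          exact ho h3
        have h3 := hDeg V G L P g hM.cex v hvP
        omega
      · intro v hv u u' h3 h4 h5 h6
        by_contra hne'
        exact hne' (hcase v hv u u' h3 h4 h5 h6)
      · rintro f hf ⟨v, u, h3, h4, h5⟩
        refine mem_map.2 ⟨⟨f, hf⟩, hX ?_, rfl⟩
        rw [hB, mem_filter]
        exact ⟨mem_univ _, v, u, h3, h4, h5⟩
    have h3 : ∀ X : Finset {f // f ∈ Ps}, B ⊆ X → ∀ F, OddFam (pg M Ps) X F →
        F.card + 3 ≤ X.card := by
      intro X hX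
      have hXne : X.Nonempty := by
        by_contra hcon
        rw [not_nonempty_iff_eq_empty] at hcon
        have h4 := hqB X hX
        rw [hcon, hemp, hreg0.2] at h4
        omega
      exact oddFam_parity (K := pg M Ps) (X := X) (c := 2) hoddι (by decide) (by
        intro F hF
        have h4 := h2 X hXne F hF
        have h5 := hqB X hX
        omega)
    obtain ⟨m, hm1, hm2, hm3, hm4⟩ := matching_exits (pg M Ps) B 3 hoddι (by decide) h0 h1 h3
    refine hFin V G M o L P g hM R Ps w ho hb hp hne m (fun _ v => ∃ u, u ∉ inV M R ∧ G.Adj v u) hm1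
      (fun a ha => hm2 a ha) (fun _ _ h => h) ?_ ?_
    · intro a ha
      have h4 := hm3 a ha
      rw [hB, mem_filter] at h4
      obtain ⟨_, v, u, h5, h6, h7⟩ := h4
      exact ⟨v, h5, u, h7, h6⟩
    · intro c hc1 hc2
      obtain ⟨a, ha, a', ha', haa⟩ : ∃ a ∈ univ.filter fun p => m p = p,
          ∃ a' ∈ univ.filter fun p => m p = p, a ≠ a' := by
        rw [← one_lt_card, hm4]
        decide
      obtain ⟨u, hu1, hu2⟩ := hc2 a (mem_filter.1 ha).2
      obtain ⟨u', hu1', hu2'⟩ := hc2 a' (mem_filter.1 ha').2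
      have hcc : c a ≠ c a' := by
        intro h4
        have h5 := hc1 a'
        rw [← h4] at h5
        exact haa (Subtype.ext (hp.disj a a.2 a' a'.2 (c a) (hc1 a) h5))
      have h4 : ({(c a, u), (c a', u')} : Finset (V × V)) ⊆
          ((univ.image c) ×ˢ (inV M R)ᶜ).filter fun p => G.Adj p.1 p.2 := by
        intro y hy
        rw [mem_insert, mem_singleton] at hy
        rcases hy with rfl | rfl
        · exact mem_filter.2 ⟨mem_product.2 ⟨mem_image_of_mem _ (mem_univ _), mem_compl.2 hu1⟩, hu2⟩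
        · exact mem_filter.2
            ⟨mem_product.2 ⟨mem_image_of_mem _ (mem_univ _), mem_compl.2 hu1'⟩, hu2'⟩
      have h5 := card_le_card h4
      rw [card_pair (fun h => hcc (Prod.ext_iff.1 h).1)] at h5
      exact h5

end BadD
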