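import Mathlib

set_option autoImplicit false

/-!
# MP_86b854_co : the matching lemma for bad discs (note 1761, (B4))

Tutte's theorem in terms of families of pairwise disjoint odd sets which are closed in the
complement of `X`, and the version with `r` exits.
-/

namespace BadD

open Finset

/-- `F` is a family of pairwise disjoint odd sets, disjoint from `X` and closed for adjacency
outside of `X` -/
structure OddFam {P : Type} [DecidableEq P] (K : SimpleGraph P) (X : Finset P)
    (F : Finset (Finset P)) : Prop where
  odd : ∀ Q ∈ F, Odd Q.card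
  disjX : ∀ Q ∈ F, Disjoint Q X
  closed : ∀ Q ∈ F, ∀ p ∈ Q, ∀ q, K.Adj p q → q ∉ X → q ∈ Q
  disj : ∀ Q ∈ F, ∀ Q' ∈ F, Q ≠ Q' → Disjoint Q Q'

/-- Tutte's theorem -/
theorem tutte_fam {P : Type} [Fintype P] [DecidableEq P] (G : SimpleGraph P)
    (h : ∀ U F, OddFam G U F → F.card ≤ U.card) :
    ∃ m : P → P, (∀ v, m (m v) = v) ∧ ∀ v, G.Adj v (m v) := by
  classical
  have h1 : ∃ M : G.Subgraph, M.IsPerfectMatching := by
    rw [SimpleGraph.tutte]
    intro u hu
    unfold SimpleGraph.IsTutteViolator at hu
    set H := ((⊤ : G.Subgraph).deleteVerts u) with hH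
    let f : H.coe.ConnectedComponent → Finset P := fun c => (Subtype.val '' c.supp).toFinset
    have hverts : ∀ p, p ∈ H.verts ↔ p ∉ u := by
      intro p
      rw [hH]
      simp
    have hf : Function.Injective f := by
      intro c c' hcc
      have h2 : (Subtype.val '' c.supp : Set P) = Subtype.val '' c'.supp := Set.toFinset_inj.1 hcc
      exact SimpleGraph.ConnectedComponent.supp_injective
        (Set.image_injective.2 Subtype.val_injective h2)
    have hfam : OddFam G u.toFinset (H.coe.oddComponents.toFinset.image f) := by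
      refine ⟨?_, ?_, ?_, ?_⟩
      · intro Q hQ
        obtain ⟨c, hc, rfl⟩ := mem_image.1 hQ
        have hc' : Odd c.supp.ncard := by simpa [SimpleGraph.oddComponents] using hc
        have h2 : (f c).card = c.supp.ncard := by
          rw [← Set.ncard_image_of_injective _ Subtype.val_injective, Set.ncard_eq_toFinset_card']
        rw [h2]
        exact hc'
      · intro Q hQ
        obtain ⟨c, hc, rfl⟩ := mem_image.1 hQ
        rw [disjoint_left]
        intro p hp hpu
        simp only [f, Set.mem_toFinset, Set.mem_image] at hp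
        obtain ⟨x, _, rfl⟩ := hp
        exact (hverts x).1 x.2 (by simpa using hpu)
      · intro Q hQ p hp q hpq hq
        obtain ⟨c, hc, rfl⟩ := mem_image.1 hQ
        simp only [f, Set.mem_toFinset, Set.mem_image] at hp ⊢
        obtain ⟨x, hx, rfl⟩ := hp
        have hxv := (hverts x).1 x.2
        have hqu : q ∉ u := by simpa using hq
        have hqv : q ∈ H.verts := (hverts q).2 hqu
        refine ⟨⟨q, hqv⟩, ?_, rfl⟩
        have hadj : H.coe.Adj x ⟨q, hqv⟩ := by
          rw [SimpleGraph.Subgraph.coe_adj]
          exact SimpleGraph.Subgraph.deleteVerts_adj.2 ⟨by simp, hxv, by simp, hqu, by simpa using hpq⟩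
        exact c.mem_supp_of_adj_mem_supp hx hadj
      · intro Q hQ Q' hQ' hne
        obtain ⟨c, hc, rfl⟩ := mem_image.1 hQ
        obtain ⟨c', hc', rfl⟩ := mem_image.1 hQ'
        have hcc : c ≠ c' := fun h => hne (by rw [h])
        rw [disjoint_left]
        intro p hp hp'
        simp only [f, Set.mem_toFinset, Set.mem_image] at hp hp'
        obtain ⟨x, hx, rfl⟩ := hp
        obtain ⟨y, hy, hxy⟩ := hp'
        have : y = x := Subtype.val_injective hxy
        subst this
        rw [SimpleGraph.ConnectedComponent.mem_supp_iff] at hx hy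
        exact hcc (hx.symm.trans hy)
    have h2 := h _ _ hfam
    rw [card_image_of_injective _ hf] at h2
    rw [Set.ncard_eq_toFinset_card' u, Set.ncard_eq_toFinset_card'] at hu
    omega
  obtain ⟨M, hM⟩ := h1
  have h2 : ∀ v, ∃! w, M.Adj v w := fun v => hM.1 (hM.2 v)
  choose m hm hm' using h2
  refine ⟨m, fun v => ?_, fun v => (hm v).adj_sub⟩
  exact (hm' (m v) v (hm v).symm).symm

section exits

variable {P : Type} [Fintype P] [DecidableEq P]

/-- the graph `K` with `r` new vertices, each adjacent to all of `B` -/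
def exitG (K : SimpleGraph P) (B : Finset P) (r : ℕ) : SimpleGraph (P ⊕ Fin r) where
  Adj x y := match x, y with
    | .inl p, .inl q => K.Adj p q
    | .inl p, .inr _ => p ∈ B
    | .inr _, .inl q => q ∈ B
    | .inr _, .inr _ => False
  symm := ⟨by
    rintro (p | o) (q | o') h
    · exact SimpleGraph.Adj.symm (G := K) h
    · exact h
    · exact h
    · exact h⟩
  loopless := ⟨by
    rintro (p | o) h
    · exact K.loopless.irrefl p h
    · exact h⟩

/-- the upgrade by parity -/
theorem oddFam_parity {K : SimpleGraph P} {X : Finset P} {c : ℕ} (hP : Odd (Fintype.card P))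
    (hc : Even c) (h : ∀ F, OddFam K X F → F.card + c ≤ X.card) :
    ∀ F, OddFam K X F → F.card + (c + 1) ≤ X.card := by
  intro F hF
  have h1 := h F hF
  by_contra hcon
  have h2 : F.card + c = X.card := by omega
  set R : Finset P := univ \ (X ∪ F.biUnion id) with hR
  have hXF : Disjoint X (F.biUnion id) := by
    rw [disjoint_biUnion_right]
    exact fun Q hQ => (hF.disjX Q hQ).symm
  have hcard : (F.biUnion id).card = ∑ Q ∈ F, Q.card :=
    card_biUnion fun Q hQ Q' hQ' hne => hF.disj Q hQ Q' hQ' hne
  have hpar : (∑ Q ∈ F, Q.card) % 2 = F.card % 2 := by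
    rw [Finset.sum_nat_mod]
    have : ∑ Q ∈ F, Q.card % 2 = F.card := by
      rw [card_eq_sum_ones]
      exact sum_congr rfl fun Q hQ => Nat.odd_iff.1 (hF.odd Q hQ)
    rw [this]
  have hRc : R.card = Fintype.card P - (X.card + (F.biUnion id).card) := by
    rw [hR, card_sdiff_of_subset (subset_univ _), card_union_of_disjoint hXF, card_univ]
  have hle : X.card + (F.biUnion id).card ≤ Fintype.card P := by
    rw [← card_union_of_disjoint hXF]
    exact card_le_univ _
  have hRodd : Odd R.card := by
    rw [Nat.odd_iff] at hP ⊢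
    rw [Nat.even_iff] at hc
    omega
  have hRF : ∀ Q ∈ F, Disjoint Q R := by
    intro Q hQ
    rw [disjoint_left]
    intro p hp hpR
    rw [hR, mem_sdiff, mem_union, mem_biUnion] at hpR
    exact hpR.2 (Or.inr ⟨Q, hQ, hp⟩)
  have hRnot : R ∉ F := fun hmem => by
    have h3 := hRF R hmem
    rw [disjoint_self_iff_empty] at h3
    rw [h3] at hRodd
    simp at hRodd
  have hfam : OddFam K X (insert R F) := by
    refine ⟨?_, ?_, ?_, ?_⟩
    · intro Q hQ
      rcases mem_insert.1 hQ with rfl | hQ
      · exact hRodd
      · exact hF.odd Q hQ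
    · intro Q hQ
      rcases mem_insert.1 hQ with rfl | hQ
      · rw [disjoint_left]
        intro p hp hpX
        rw [hR, mem_sdiff, mem_union] at hp
        exact hp.2 (Or.inl hpX)
      · exact hF.disjX Q hQ
    · intro Q hQ p hp q hpq hq
      rcases mem_insert.1 hQ with rfl | hQ
      · rw [hR, mem_sdiff, mem_union, mem_biUnion] at hp ⊢
        refine ⟨mem_univ _, ?_⟩
        rintro (hqX | ⟨Q, hQ, hqQ⟩)
        · exact hq hqX
        · refine hp.2 (Or.inr ⟨Q, hQ, ?_⟩)
          exact hF.closed Q hQ q hqQ p hpq.symm fun hpX => hp.2 (Or.inl hpX)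
      · exact hF.closed Q hQ p hp q hpq hq
    · intro Q hQ Q' hQ' hne
      rcases mem_insert.1 hQ with rfl | hQ <;> rcases mem_insert.1 hQ' with rfl | hQ'
      · exact absurd rfl hne
      · exact (hRF Q' hQ').symm
      · exact hRF Q hQ
      · exact hF.disj Q hQ Q' hQ' hne
  have h3 := h _ hfam
  rw [card_insert_of_notMem hRnot] at h3
  omega

/-- **matching with `r` exits** -/
theorem matching_exits (K : SimpleGraph P) (B : Finset P) (r : ℕ) (hP : Odd (Fintype.card P))
    (hr : Odd r)
    (h0 : ∀ Q : Finset P, Q.Nonempty → (∀ p ∈ Q, ∀ q, K.Adj p q → q ∈ Q) → Q = univ)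
    (h1 : ∀ X : Finset P, X.Nonempty → ∀ F, OddFam K X F → F.card + 1 ≤ X.card)
    (h3 : ∀ X : Finset P, B ⊆ X → ∀ F, OddFam K X F → F.card + r ≤ X.card) :
    ∃ m : P → P, (∀ p, m (m p) = p) ∧ (∀ p, m p ≠ p → K.Adj p (m p)) ∧
      (∀ p, m p = p → p ∈ B) ∧ (univ.filter fun p => m p = p).card = r := by
  classical
  obtain ⟨m, hm1, hm2⟩ : ∃ m : P ⊕ Fin r → P ⊕ Fin r, (∀ v, m (m v) = v) ∧
      ∀ v, (exitG K B r).Adj v (m v) := by
    apply tutte_fam
    intro U F' hF'
    set X : Finset P := univ.filter fun p => Sum.inl p ∈ U with hX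
    set A : Finset (Fin r) := univ.filter fun o => Sum.inr o ∈ U with hA
    have hUcard : U.card = X.card + A.card := by
      have : U = (X.map ⟨Sum.inl, Sum.inl_injective⟩) ∪ (A.map ⟨Sum.inr, Sum.inr_injective⟩) := by
        ext (p | o) <;> simp [hX, hA]
      conv_lhs => rw [this]
      rw [card_union_of_disjoint, card_map, card_map]
      rw [disjoint_left]
      rintro (p | o) hp hp' <;> simp at hp hp'
    set N : Finset (Finset (P ⊕ Fin r)) := F'.filter fun Q => ∀ o, Sum.inr o ∉ Q with hN
    set O : Finset (Finset (P ⊕ Fin r)) := F'.filter fun Q => ¬ ∀ o, Sum.inr o ∉ Q with hO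
    have hNO : F'.card = N.card + O.card := by
      rw [hN, hO]
      exact (card_filter_add_card_filter_not _).symm
    let g : Finset (P ⊕ Fin r) → Finset P := fun Q => univ.filter fun p => Sum.inl p ∈ Q
    have hg : ∀ Q ∈ N, Q = (g Q).map ⟨Sum.inl, Sum.inl_injective⟩ := by
      intro Q hQ
      have h2 := (mem_filter.1 hQ).2
      ext (p | o)
      · simp [g]
      · simp [h2 o]
    have hginj : Set.InjOn g N := by
      intro Q hQ Q' hQ' hQQ
      rw [hg Q hQ, hg Q' hQ', hQQ]
    have hNfam : OddFam K X (N.image g) := by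
      refine ⟨?_, ?_, ?_, ?_⟩
      · intro R hR
        obtain ⟨Q, hQ, rfl⟩ := mem_image.1 hR
        have h4 := hF'.odd Q (mem_filter.1 hQ).1
        rw [hg Q hQ, card_map] at h4
        exact h4
      · intro R hR
        obtain ⟨Q, hQ, rfl⟩ := mem_image.1 hR
        rw [disjoint_left]
        intro p hp hpX
        exact (disjoint_left.1 (hF'.disjX Q (mem_filter.1 hQ).1)) (mem_filter.1 hp).2
          (mem_filter.1 hpX).2
      · intro R hR p hp q hpq hq
        obtain ⟨Q, hQ, rfl⟩ := mem_image.1 hR
        refine mem_filter.2 ⟨mem_univ _, ?_⟩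
        refine hF'.closed Q (mem_filter.1 hQ).1 _ (mem_filter.1 hp).2 (Sum.inl q) hpq ?_
        intro hqU
        exact hq (mem_filter.2 ⟨mem_univ _, hqU⟩)
      · intro R hR R' hR' hne
        obtain ⟨Q, hQ, rfl⟩ := mem_image.1 hR
        obtain ⟨Q', hQ', rfl⟩ := mem_image.1 hR'
        rw [disjoint_left]
        intro p hp hp'
        exact (disjoint_left.1 (hF'.disj Q (mem_filter.1 hQ).1 Q' (mem_filter.1 hQ').1
          fun h => hne (by rw [h]))) (mem_filter.1 hp).2 (mem_filter.1 hp').2
    have hNcard : (N.image g).card = N.card := card_image_of_injOn hginj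
    -- every member of `O` contains an exit
    have hOex : ∀ Q ∈ O, ∃ o, Sum.inr o ∈ Q := by
      intro Q hQ
      have h2 := (mem_filter.1 hQ).2
      push Not at h2
      exact h2
    have hOle : O.card + A.card ≤ r := by
      have : Nonempty (Fin r) := ⟨⟨0, hr.pos⟩⟩
      choose! e he using hOex
      have h4 : O.card ≤ (univ \ A).card := by
        refine card_le_card_of_injOn e ?_ ?_
        · intro Q hQ
          rw [mem_coe, mem_sdiff]
          refine ⟨mem_univ _, fun hA' => ?_⟩
          exact (disjoint_left.1 (hF'.disjX Q (mem_filter.1 hQ).1)) (he Q hQ) (mem_filter.1 hA').2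
        · intro Q hQ Q' hQ' hee
          by_contra hne
          have h5 := hF'.disj Q (mem_filter.1 hQ).1 Q' (mem_filter.1 hQ').1 hne
          have h6 := he Q hQ
          rw [hee] at h6
          exact (disjoint_left.1 h5) h6 (he Q' hQ')
      rw [card_sdiff_of_subset (subset_univ _), card_univ, Fintype.card_fin] at h4
      have h5 : A.card ≤ r := by
        simpa using card_le_univ A
      omega
    by_cases hBX : B ⊆ X
    · have h4 := h3 X hBX _ hNfam
      rw [hNcard] at h4
      omega
    · obtain ⟨b, hbB, hbX⟩ := not_subset.1 hBX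
      have hbU : Sum.inl b ∉ U := fun h => hbX (mem_filter.2 ⟨mem_univ _, h⟩)
      -- members of `O` contain `b`
      have hOb : ∀ Q ∈ O, Sum.inl b ∈ Q := by
        intro Q hQ
        obtain ⟨o, ho⟩ := hOex Q hQ
        exact hF'.closed Q (mem_filter.1 hQ).1 _ ho (Sum.inl b) hbB hbU
      have hO1 : O.card ≤ 1 := by
        rw [card_le_one]
        intro Q hQ Q' hQ'
        by_contra hne
        exact (disjoint_left.1 (hF'.disj Q (mem_filter.1 hQ).1 Q' (mem_filter.1 hQ').1 hne))
          (hOb Q hQ) (hOb Q' hQ')
      rcases X.eq_empty_or_nonempty with hXe | hXne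
      · -- `X` empty
        have hU0 : ∀ p : P, Sum.inl p ∉ U := by
          intro p hp
          have : p ∈ X := mem_filter.2 ⟨mem_univ _, hp⟩
          rw [hXe] at this
          exact notMem_empty _ this
        have hall : ∀ Q ∈ F', ∀ p : P, Sum.inl p ∈ Q := by
          intro Q hQ
          have h4 : (g Q).Nonempty := by
            obtain ⟨x, hx⟩ : Q.Nonempty := by
              rw [← card_pos]
              exact (hF'.odd Q hQ).pos
            rcases x with p | o
            · exact ⟨p, mem_filter.2 ⟨mem_univ _, hx⟩⟩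
            · exact ⟨b, mem_filter.2 ⟨mem_univ _, hF'.closed Q hQ _ hx (Sum.inl b) hbB hbU⟩⟩
          have h5 := h0 (g Q) h4 (by
            intro p hp q hpq
            exact mem_filter.2 ⟨mem_univ _, hF'.closed Q hQ _ (mem_filter.1 hp).2 (Sum.inl q) hpq
              (hU0 q)⟩)
          intro p
          have : p ∈ g Q := by
            rw [h5]
            exact mem_univ _
          exact (mem_filter.1 this).2
        have hF1 : F'.card ≤ 1 := by
          rw [card_le_one]
          intro Q hQ Q' hQ'
          by_contra hne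
          exact (disjoint_left.1 (hF'.disj Q hQ Q' hQ' hne)) (hall Q hQ b) (hall Q' hQ' b)
        by_contra hcon
        have hU : U.card = 0 := by omega
        have hUe : U = ∅ := card_eq_zero.1 hU
        obtain ⟨Q, hQ⟩ : F'.Nonempty := by
          rw [← card_pos]
          omega
        have hQu : Q = univ := by
          ext (p | o)
          · simp [hall Q hQ p]
          · simp only [mem_univ, iff_true]
            exact hF'.closed Q hQ _ (hall Q hQ b) (Sum.inr o) hbB (by rw [hUe]; exact notMem_empty _)
        have h4 := hF'.odd Q hQ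
        rw [hQu, card_univ, Fintype.card_sum, Fintype.card_fin] at h4
        rw [Nat.odd_iff] at h4 hP hr
        omega
      · have h4 := h1 X hXne _ hNfam
        rw [hNcard] at h4
        omega
  -- from the perfect matching to `m`
  let m' : P → P := fun p => match m (Sum.inl p) with
    | .inl q => q
    | .inr _ => p
  have hinl : ∀ p q, m (Sum.inl p) = Sum.inl q → m' p = q := by
    intro p q h
    simp only [m', h]
  have hinr : ∀ p o, m (Sum.inl p) = Sum.inr o → m' p = p := by
    intro p o h
    simp only [m', h]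
  have hne : ∀ p q, m (Sum.inl p) = Sum.inl q → q ≠ p := by
    rintro p q h rfl
    have h2 := hm2 (Sum.inl q)
    rw [h] at h2
    exact (exitG K B r).loopless.irrefl _ h2
  have hfix : ∀ p, m' p = p → ∃ o, m (Sum.inl p) = Sum.inr o := by
    intro p hp
    rcases hmp : m (Sum.inl p) with q | o
    · exact absurd ((hinl p q hmp).symm.trans hp) (hne p q hmp)
    · exact ⟨o, rfl⟩
  refine ⟨m', ?_, ?_, ?_, ?_⟩
  · intro p
    rcases hmp : m (Sum.inl p) with q | o
    · rw [hinl p q hmp]
      have h2 := hm1 (Sum.inl p)
      rw [hmp] at h2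
      exact hinl q p h2
    · rw [hinr p o hmp, hinr p o hmp]
  · intro p hp
    rcases hmp : m (Sum.inl p) with q | o
    · rw [hinl p q hmp]
      have h2 := hm2 (Sum.inl p)
      rw [hmp] at h2
      exact h2
    · exact absurd (hinr p o hmp) hp
  · intro p hp
    obtain ⟨o, ho⟩ := hfix p hp
    have h2 := hm2 (Sum.inl p)
    rw [ho] at h2
    exact h2
  · -- the fixed points correspond to the exits
    have hex : ∀ o : Fin r, ∃ p, m (Sum.inr o) = Sum.inl p := by
      intro o
      rcases hmo : m (Sum.inr o) with p | o'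
      · exact ⟨p, rfl⟩
      · have h2 := hm2 (Sum.inr o)
        rw [hmo] at h2
        exact h2.elim
    choose e he using hex
    have he' : ∀ o, m (Sum.inl (e o)) = Sum.inr o := by
      intro o
      have h2 := hm1 (Sum.inr o)
      rw [he o] at h2
      exact h2
    have hcard : (univ.image e).card = r := by
      rw [card_image_of_injective, card_univ, Fintype.card_fin]
      intro o o' hoo
      have h2 := he' o
      rw [hoo, he' o'] at h2
      exact (Sum.inr_injective h2).symm
    rw [← hcard]
    congr 1
    ext p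
    simp only [mem_filter, mem_univ, true_and, mem_image]
    constructor
    · intro hp
      obtain ⟨o, ho⟩ := hfix p hp
      refine ⟨o, ?_⟩
      have h2 := hm1 (Sum.inl p)
      rw [ho, he o] at h2
      exact Sum.inl_injective h2
    · rintro ⟨o, rfl⟩
      exact hinr _ o (he' o)

end exits

end BadD
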