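import Pool.Agent.Lib.MP_86b854_co.Interface2
import Pool.Agent.Lib.MP_86b854_co.Bad.Tutte

set_option autoImplicit false

/-!
# MP_86b854_co : bad discs (note 1761), specification

In a minimal counterexample there is no disc `R` with a boundary of length 7 whose interior vertices
are covered by vertex-disjoint pentagonal faces while all other faces of the disc are quads
(`S_NoBad`). Every `def S_Foo : Prop` is one Lean task: write
`Pool/Agent/Lib/MP_86b854_co/Bad/Foo.lean` containing `theorem tFoo (hypotheses : S_...) : S_Foo` in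
the namespace `BadD`; the allowed hypotheses are listed in the docstring (also those of the namespace
`C7`, from `Interface.lean`).

Reminder: `M.α d = d.symm`, `M.vt d = d.fst`, `M.φ d = M.σ d.symm`, `fc M (M.φ d) = fc M d`,
`(M.φ d).fst = d.snd`, `fc M (M.σ d) = fc M d.symm`.
-/

namespace BadD

open PLM T72 C7 Finset Equiv

variable {V : Type} [Fintype V] [DecidableEq V] {G : SimpleGraph V} [DecidableRel G.Adj]

/-- the interior vertices of the region `R` are covered by the vertex-disjoint pentagonal faces `Ps`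
(all of whose vertices are interior); the other faces of `R` are quads -/
structure Pent (M : CMap G.Dart V) (R Ps : Finset (Fc M)) : Prop where
  sub : Ps ⊆ R
  five : ∀ f ∈ Ps, len M f = 5
  four : ∀ f ∈ R, f ∉ Ps → len M f = 4
  cover : ∀ v ∈ inV M R, ∃ f ∈ Ps, Inc M v f
  inner : ∀ f ∈ Ps, ∀ v, Inc M v f → v ∈ inV M R
  disj : ∀ f ∈ Ps, ∀ f' ∈ Ps, ∀ v, Inc M v f → Inc M v f' → f = f'

open Classical in
/-- the vertices of the pentagons in `Ps \ X` -/
noncomputable def aV (M : CMap G.Dart V) (Ps X : Finset (Fc M)) : Finset V :=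
  univ.filter fun v => ∃ f ∈ Ps, f ∉ X ∧ Inc M v f

open Classical in
/-- the darts which do not touch `aV M Ps X` -/
noncomputable def Hd (M : CMap G.Dart V) (Ps X : Finset (Fc M)) : Finset G.Dart :=
  univ.filter fun d => d.fst ∉ aV M Ps X ∧ d.snd ∉ aV M Ps X

/-- the set `ρ` of faces is closed under crossing the edges which are not in `H` -/
def Cl (M : CMap G.Dart V) (H : Finset G.Dart) (ρ : Finset (Fc M)) : Prop :=
  ∀ d : G.Dart, d ∉ H → (fc M d ∈ ρ ↔ fc M d.symm ∈ ρ)

/-- minimal nonempty closed sets of faces (the faces of the subgraph `H`) -/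
def Atm (M : CMap G.Dart V) (H : Finset G.Dart) (ρ : Finset (Fc M)) : Prop :=
  ρ.Nonempty ∧ Cl M H ρ ∧ ∀ ρ' ⊆ ρ, ρ'.Nonempty → Cl M H ρ' → ρ' = ρ

open Classical in
/-- the set of the minimal nonempty closed sets of faces -/
noncomputable def atoms (M : CMap G.Dart V) (H : Finset G.Dart) : Finset (Finset (Fc M)) :=
  univ.filter (Atm M H)

/-- the face `f` touches the set `A` of vertices -/
def Tch (M : CMap G.Dart V) (A : Finset V) (f : Fc M) : Prop := ∃ v ∈ A, Inc M v f

open Classical in
/-- the atoms of `Hd M Ps X` which touch `aV M Ps X` -/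
noncomputable def regs (M : CMap G.Dart V) (Ps X : Finset (Fc M)) : Finset (Finset (Fc M)) :=
  (atoms M (Hd M Ps X)).filter fun ρ => ∃ f ∈ ρ, Tch M (aV M Ps X) f

open Classical in
/-- the number of the quads of `R` which do not touch `aV M Ps X` -/
noncomputable def qX (M : CMap G.Dart V) (R Ps X : Finset (Fc M)) : ℕ :=
  (R.filter fun f => f ∉ Ps ∧ ¬ Tch M (aV M Ps X) f).card

/-- the graph of the pentagons: two of them are adjacent if some face touches both -/
def pg (M : CMap G.Dart V) (Ps : Finset (Fc M)) : SimpleGraph {f // f ∈ Ps} where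
  Adj a b := a ≠ b ∧ ∃ (h : Fc M) (v v' : V), Inc M v a ∧ Inc M v' b ∧ Inc M v h ∧ Inc M v' h
  symm := ⟨by
    rintro a b ⟨hne, h, v, v', h1, h2, h3, h4⟩
    exact ⟨hne.symm, h, v', v, h2, h1, h4, h3⟩⟩
  loopless := ⟨fun a h => h.1 rfl⟩

/-- **BdNe.** In a connected graph a nonempty region which is not everything has a boundary.
PROOF. Suppose that `bd M R` is empty. Let `S` be the set of the vertices `v` with a dart `d`, `d.fst = v`,
`fc M d ∈ R`. The set of the darts `d` with `fc M d ∈ R` is closed under `M.φ` (always) and under `symm`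
(no boundary), so under `M.σ` (`fc (σ d) = fc d.symm`), so by `M.hv` (`M.vt = fst`) it contains all darts at
`v` if it contains one of them (`PanD.SameCycle.mem_closed` or `PanD.sameCycle_iff_closed` in
`Pool/Agent/Lib/MP_e6972d_co/Euler.lean`, or argue as in `D/Corner.lean`); so `S` is closed under
adjacency, so `S` is everything (`G.Connected`; `R` is nonempty and every face has a dart), so the dart of
`o` is in it: `o ∈ R`. -/
def S_BdNe : Prop :=
  ∀ (V : Type) [Fintype V] [DecidableEq V] (G : SimpleGraph V) [DecidableRel G.Adj]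
    (M : CMap G.Dart V), PlaneMap M → G.Connected → ∀ (o : Fc M) (R : Finset (Fc M)), o ∉ R →
    R.Nonempty → (bd M R).Nonempty

/-- **Atoms.** The atoms are a partition of the set of the faces, and there are `ncls M H` of them.
PROOF. (4) `ρ ∩ Φ` is closed and nonempty. (3) from (4). (2) Take a closed set containing `f` with the
smallest number of elements (`univ` is closed); it is minimal: if `ρ' ⊆ ρ` is closed and nonempty then
`ρ'` or `ρ \ ρ'` (also closed) contains `f`. (1) Both are the numbers of the classes of the equivalence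
relation on darts 'no closed set of faces separates `fc M d` and `fc M e`'. `clsS M H` is this relation:
a set `S` of darts which is closed under `M.φ` is `{d | fc M d ∈ ρ}` with `ρ = {fc M d | d ∈ S}`
(`PanD.SameCycle.mem_closed`), and the condition for `x ∉ H` is `Cl M H ρ` (here `H` is symmetric or
not, the two conditions are literally the same).  The bijection: class of `d` ↦ the atom containing
`fc M d` (well defined and injective because two darts whose faces are in one atom are not separated
by closed sets, by (4), and two darts in different atoms are separated by one of them; surjective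
because every face has a dart). `Nat.card` of the quotient against `Finset.card`:
`Nat.card_congr` with the type `{ρ // ρ ∈ atoms M H}`, or `Nat.card_eq_of_bijective`. -/
def S_Atoms : Prop :=
  ∀ (V : Type) [Fintype V] [DecidableEq V] (G : SimpleGraph V) [DecidableRel G.Adj]
    (M : CMap G.Dart V), PlaneMap M → ∀ H : Finset G.Dart,
      (atoms M H).card = ncls M H ∧
      (∀ f : Fc M, ∃ ρ ∈ atoms M H, f ∈ ρ) ∧
      (∀ ρ ∈ atoms M H, ∀ ρ' ∈ atoms M H, ρ ≠ ρ' → Disjoint ρ ρ') ∧
      (∀ ρ ∈ atoms M H, ∀ Φ : Finset (Fc M), Cl M H Φ → ∀ f, f ∈ ρ → f ∈ Φ → ρ ⊆ Φ)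

/-- **PentCard.** The pentagons have five different vertices.
PROOF. (a) Let `f` be a face of length five, `d` one of its darts. The darts of `f` are
`d, φ d, ..., φ⁴ d`, all different, and `φ⁵ d = d` (`f` is a cycle of `φ` with five elements; e.g.
`Equiv.Perm.SameCycle` and `IsCycleOn.pow_card_apply`, or `PanD`). Let `v i` be their first vertices
(`i : ZMod 5` or `ℕ`, `v (i + 1) = (φ^i d).snd` is adjacent to `v i`). If `v i = v j` with `i ≠ j` then
`j - i ∈ {1, 4}` is impossible (adjacent), and `j - i ∈ {2, 3}` gives the triangle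
`v j, v (j+1), v (j+2)`, `v (j+3) = v i` (or the same with `i`, `j` exchanged).  So `fst` is injective on
the darts of `f`.
(b) `aV M Ps X` is the disjoint union (`Pent.disj`) over `f ∈ Ps \ X` of the sets of the vertices of `f`. -/
def S_PentCard : Prop :=
  ∀ (V : Type) [Fintype V] [DecidableEq V] (G : SimpleGraph V) [DecidableRel G.Adj]
    (M : CMap G.Dart V), PlaneMap M → G.CliqueFree 3 → ∀ (R Ps X : Finset (Fc M)), Pent M R Ps →
      (aV M Ps X).card = 5 * (Ps \ X).card

/-- **RegIneq.** Allowed: `S_Atoms, S_PentCard, S_EulerSub, S_DiscEuler`. The inequality from Euler's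
formula.
PROOF. `A = aV M Ps X`, `H = Hd M Ps X` (symmetric), `k = |Ps|`, `q = |R \ Ps|`.
(1) `S_PentCard` for `∅`: `|inV M R| = 5 k` (`aV M Ps ∅ = inV M R` by `cover`, `inner`), and
`S_DiscEuler`: `10 k + 2 (k + q) + 7 = 5 k + 4 q + 2`, so `2 q = 7 k + 5`.
(2) `S_EulerSub` for `H` and for `univ`: `2 ncls H + 2 |V| = |H| + 2 ncmp H + 2`,
`2 ncls univ + 2 |V| = |D| + 2 ncmp univ + 2` (`D` = all darts), `ncmp univ = 1` (`G` is connected; at least
`≥ 1` is not enough, `= 1` is needed), `ncmp H ≥ |A| + 1`: every vertex of `A` is a class of its own in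
`cmpS H`, and there is a vertex outside of `A` (the vertices of the boundary are not in `inV M R ⊇ A`).
(If `V` has no dart: `Bd M R 7 w` gives darts.)
(3) `ncls univ = |Fc M|` (`S_Atoms` with `H = univ`: every singleton is closed), and
`ncls H = |regs| + (number of the faces which do not touch A)`: `S_Atoms`; if `f` does not touch `A` then all
darts of `f` and their reverses are in `H` (`d.fst` and `d.snd = (φ d).fst` are vertices of `f`), so `{f}` is
closed, an atom, not in `regs`; an atom which contains a face which touches `A` contains no other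
faces, by (4) of `S_Atoms` with `Φ = {f}`.
(4) Let `τ` be the set of the faces touching `A`; `τ` is the disjoint union of `regs`. `τ ⊆ R`
(`A ⊆ inV M R`), `τ ∩ Ps = Ps \ X` (`disj`; every pentagon has a vertex), `τ \ Ps` = the quads of `R`
which touch `A`, `q - qX` of them. So `|τ| = (k - |X|) + (q - qX)` and
`∑ (f ∈ τ), len f = 5 (k - |X|) + 4 (q - qX)`.
(5) `∑ (f ∈ τ), len f` is the number of the darts with face in `τ`. All darts outside of `H` are such
(their face touches `A`), and all darts of `bd M ρ`, `ρ ∈ regs`, are such and are in `H` (otherwise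
`Cl` gives `fc d.symm ∈ ρ`), and these sets are pairwise disjoint. So
`(|D| - |H|) + ∑ (ρ ∈ regs), |bd M ρ| ≤ 5 (k - |X|) + 4 (q - qX)`.
(6) From (2), (3): `2 |regs| + 2 (|Fc| - |τ|) - 2 |Fc| ≥ |H| - |D| + 2 |A|`, `|A| = 5 (k - |X|)`.
(5) and (6) and (1) give the claim (`linarith`/`omega`). -/
def S_RegIneq : Prop :=
  ∀ (V : Type) [Fintype V] [DecidableEq V] (G : SimpleGraph V) [DecidableRel G.Adj]
    (M : CMap G.Dart V), PlaneMap M → G.Connected → G.CliqueFree 3 →
    ∀ (o : Fc M) (R Ps X : Finset (Fc M)) (w : ZMod 7 → V), o ∉ R → Bd M R 7 w → Pent M R Ps →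
      X ⊆ Ps →
      (∑ ρ ∈ regs M Ps X, (bd M ρ).card) + 2 * qX M R Ps X ≤
        7 * X.card + 5 + 2 * (regs M Ps X).card

/-- **RegProp.** Allowed: `S_Atoms, S_BdNe, S_ShortBd, S_Parity, S_MinOuter`. Properties of the regions
`ρ ∈ regs M Ps X`.
PROOF. (b) If `f ∈ ρ` does not touch `aV` then all darts of `f` and their reverses are in `Hd`, so `{f}` is
closed, `ρ = {f}`, but `ρ` contains a face which touches `aV`. (a) `aV ⊆ inV M R`. (c) `Pent.disj` and
(b). (d) `S_BdNe` (`o ∉ ρ` by (a)), `S_ShortBd` if `|bd M ρ| ≤ 7`.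
(e) `S_Parity`: `|bd M ρ|` has the parity of `∑ (f ∈ ρ), len f = 5 |ρ ∩ Ps| + 4 |ρ \ Ps|`, it is odd.
Suppose it is at most `5`: `MinDisc.nosep`. If `ρ = univ \ {o}` then `R = univ \ {o}` (`ρ ⊆ R`, `o ∉ R`), but
`|bd M R| = 7` and `|bd M (univ \ {o})| = len M o ≤ 5` (`S_MinOuter`; the number of boundary darts of
`Bd M R k w` is `k`). If `ρ = {f}`: `f ∈ Ps` (odd), `f ∉ X` by (c), so all darts of `f` start in `aV` and are not
in `Hd`, so the faces of their reverses are in `ρ`: `bd M ρ` is empty, contradiction to (d).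
(f) `S_ShortBd` gives `w'`.  `Pent M ρ (Ps ∩ ρ)`: `cover`: `v ∈ inV M ρ ⊆ inV M R` is on some `f ∈ Ps`, and the
corner of `f` at `v` is in `ρ`. `inner`: let `v` be on `f ∈ Ps ∩ ρ`, `f ∉ X` by (c), so `v ∈ aV`, all darts at
`v` are outside of `Hd`; `Cl` and `fc (σ d) = fc d.symm`: all corners at `v` are in `ρ`. -/
def S_RegProp : Prop :=
  ∀ (V : Type) [Fintype V] [DecidableEq V] (G : SimpleGraph V) [DecidableRel G.Adj]
    (M : CMap G.Dart V) (o : Fc M) (L : V → Finset ℕ) (P : Finset V) (g : V → Finset ℕ),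
    MinDisc G M o L P g →
    ∀ (R Ps X : Finset (Fc M)) (w : ZMod 7 → V), o ∉ R → Bd M R 7 w → Pent M R Ps → X ⊆ Ps →
      ∀ ρ ∈ regs M Ps X, ρ ⊆ R ∧ (∀ f ∈ ρ, Tch M (aV M Ps X) f) ∧ (∀ f ∈ X, f ∉ ρ) ∧
        4 ≤ (bd M ρ).card ∧
        (Odd (ρ ∩ Ps).card → 7 ≤ (bd M ρ).card ∧ ((bd M ρ).card = 7 →
          Pent M ρ (Ps ∩ ρ) ∧ ∃ w' : ZMod 7 → V, Bd M ρ 7 w')) ∧
        ((bd M ρ).card % 2 = (ρ ∩ Ps).card % 2)

/-- **Fam.** Allowed: `S_Atoms`. Odd closed sets of pentagons give odd regions.
PROOF. For `Q ∈ F` let `Φ Q` be the set of the faces which touch a vertex of a pentagon in `Q`.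
`Cl M (Hd M Ps X) (Φ Q)`: let `d ∉ Hd`, so one of its ends, `a`, is in `aV`, i.e. on `f' ∈ Ps`, `f' ∉ X`; both
`fc M d` and `fc M d.symm` touch `a` (both ends of `d` are on both faces). If one of them is in `Φ Q`, i.e.
it touches some `v` on `f ∈ Q`, then `f = f'` or `f`, `f'` are adjacent in `pg`, so `f' ∈ Q` (`closed`), so
both are in `Φ Q`.  `Φ Q ∩ Ps = Q` (`Pent.disj`; the pentagons of `Q` are not in `X` and have vertices).
By `S_Atoms` `Φ Q` is the disjoint union of the atoms contained in it, all of which are in `regs` (every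
face of `Φ Q` touches `aV`), so some atom `ρ ⊆ Φ Q` has `|ρ ∩ Ps|` odd (the sum is `|Q|`).  `ρ ∩ Ps ⊆ Q` is
nonempty, so different `Q` (disjoint) give different `ρ`.  (`S_Atoms` (2), (4) for a face of `Φ Q`.) -/
def S_Fam : Prop :=
  ∀ (V : Type) [Fintype V] [DecidableEq V] (G : SimpleGraph V) [DecidableRel G.Adj]
    (M : CMap G.Dart V), PlaneMap M → ∀ (R Ps : Finset (Fc M)), Pent M R Ps →
    ∀ (X : Finset {f // f ∈ Ps}) (F : Finset (Finset {f // f ∈ Ps})), OddFam (pg M Ps) X F →
      F.card ≤ ((regs M Ps (X.map ⟨Subtype.val, Subtype.val_injective⟩)).filter fun ρ =>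
        Odd (ρ ∩ Ps).card).card

/-- **Conn0.** Allowed: `S_Atoms`. If there is only one region for `X = ∅` then the graph of the
pentagons is connected.
PROOF. As in `S_Fam` the set `Φ Q` of the faces touching a vertex of a pentagon of `Q` is closed for
`Hd M Ps ∅`, nonempty, and contains an atom, which is in `regs M Ps ∅`; the atom of any pentagon is in
`regs M Ps ∅` too. So they are the same, and every pentagon is in `Φ Q ∩ Ps = Q`. -/
def S_Conn0 : Prop :=
  ∀ (V : Type) [Fintype V] [DecidableEq V] (G : SimpleGraph V) [DecidableRel G.Adj]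
    (M : CMap G.Dart V), PlaneMap M → ∀ (R Ps : Finset (Fc M)), Pent M R Ps →
    (regs M Ps ∅).card ≤ 1 → ∀ Q : Finset {f // f ∈ Ps}, Q.Nonempty →
      (∀ p ∈ Q, ∀ q, (pg M Ps).Adj p q → q ∈ Q) → Q = univ

/-- **Quads7.** Allowed: `S_Two`. If every interior vertex has at most one neighbour on the cycle and
`X` contains all pentagons with a vertex adjacent to the cycle, then there are seven quads which do not
touch `aV M Ps X`.
PROOF. For `i : ZMod 7` let `d i` be the boundary dart `(w i, w (i + 1))` and `f i = fc M (d i) ∈ R`. `w i` is not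
interior (`fc M (d i).symm ∉ R`), so `f i ∉ Ps` (`Pent.inner`), `len = 4`: its darts are
`d i, φ (d i), φ² (d i), φ³ (d i)` with first vertices `w i, w (i + 1), y, x`; `y` is adjacent to `w (i + 1)`
and to `x`, `x` is adjacent to `w i`.  `f i` touches an interior vertex by hypothesis, so `x` or `y` is
interior. If `x` is interior and `y` is not, then `x` has the two neighbours `w i ≠ y` (`y = w i` would
make `φ (d i) = (w (i+1), w i)`, the reverse of `d i`, whose face is not in `R`) which are not interior;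
contradiction. If `y` is interior and `x` is not, then `y` has the two neighbours `w (i+1)` and `x`; if
`x = w (i+1)` then `φ² (d i) = (y, x)` is the reverse of `φ (d i)`, `σ` fixes it (`φ e = σ e.symm`), so `y` has
degree one; otherwise contradiction to the hypothesis. So `x` and `y` are interior;
they lie on pentagons with a vertex adjacent to the cycle, which are in `X`, so (`Pent.disj`) they are
not in `aV M Ps X`, and neither are `w i`, `w (i + 1)`: `f i` is one of the quads counted by `qX`.  The `f i`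
are different: if `f j = f i` then `d j` is one of the four darts; `w j` and `w (j + 1)` are not interior,
so `d j` is not `φ (d i)` (it ends at `y`), `φ² (d i)` (starts at `y`), `φ³ (d i)` (starts at `x`); so
`d j = d i`, `j = i` (`w` injective). -/
def S_Quads7 : Prop :=
  ∀ (V : Type) [Fintype V] [DecidableEq V] (G : SimpleGraph V) [DecidableRel G.Adj]
    (M : CMap G.Dart V), PlaneMap M → ∀ (R Ps X : Finset (Fc M)) (w : ZMod 7 → V), Bd M R 7 w →
    Pent M R Ps → (∀ f ∈ R, Tch M (inV M R) f) → (∀ v ∈ inV M R, 2 ≤ G.degree v) →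
    (∀ v ∈ inV M R, ∀ u u', G.Adj v u → G.Adj v u' → u ∉ inV M R → u' ∉ inV M R → u = u') →
    (∀ f ∈ Ps, (∃ v u, Inc M v f ∧ G.Adj v u ∧ u ∉ inV M R) → f ∈ X) →
    7 ≤ qX M R Ps X

/-- **BipBd.** A criterion for bipartite induced subgraphs of plane graphs: every region whose boundary
runs inside of `S` has an even boundary.
PROOF. Let `H` be the graph on `V` (or on `{v // v ∈ S}`) whose edges are the edges of `G` inside of `S`. If it
is not two-colourable then it has a closed walk of odd length
(`SimpleGraph.two_colorable_iff_forall_loop_even`). Let `z d` be the number (mod 2) of the steps of the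
walk along `d` or `d.symm`; `z` is a mod 2 cycle (`CMap.Cyc`) supported by darts inside of `S`.
`M.Planar`: `z d = h d + h d.symm`, `h` is constant on faces. Let `R = {f | h = 1}` or its complement,
such that `o ∉ R`. The boundary darts of `R` are inside of `S`, and `|bd M R|` is the number of the edges
with `z = 1` (exactly one dart of each such edge is in `bd M R`), which has the parity of the length of
the walk (the walk makes an even or odd number of steps along every edge). So it is odd,
contradiction. (`BipOn` from the colouring: `col v`.) -/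
def S_BipBd : Prop :=
  ∀ (V : Type) [Fintype V] [DecidableEq V] (G : SimpleGraph V) [DecidableRel G.Adj]
    (M : CMap G.Dart V), PlaneMap M → ∀ (o : Fc M) (S : Finset V),
    (∀ R : Finset (Fc M), o ∉ R → (∀ d ∈ bd M R, d.fst ∈ S ∧ d.snd ∈ S) → Even (bd M R).card) →
    BipOn G S

/-- **Sel.** Allowed: `S_BipBd, S_Nest, S_Parity, S_Corner`. The vertices `c f` chosen from a matching of
the pentagons with exits are an odd cycle transversal of the interior.
PROOF. `S_BipBd` with `S = inV M R \ Ps.image c`. Let `R'` be a region, `o ∉ R'`, whose boundary darts have both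
ends in `S`. `S_Nest`: `R' ⊆ R` (a boundary dart starts in `inV M R`, so its face is in `R`). `S_Parity`:
`|bd M R'|` has the parity of `∑ (f ∈ R'), len f`, i.e. of `|Ps ∩ R'|`. `m` is an involution of `Ps ∩ R'`
without fixed points, so `|Ps ∩ R'|` is even (`Finset.card_involution`,
`Finset.even_card_of_involutive`-like lemma, or `Finset.sum_involution` in `ZMod 2`):
let `f ∈ Ps ∩ R'`. The vertex `c f` is not in `S`, so no boundary dart of `R'` starts there, so all faces at
`c f` have the same status (`S_Corner` (2)).  If `m f ≠ f`: `f ∈ R'`, so the common face `h` is in `R'`, so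
(the same argument at `c (m f)`) `m f ∈ R'`.  If `m f = f`: `c f` is adjacent to `u ∉ inV M R`; the dart
`e = (c f, u)` has `fc M e ∈ R'`; `φ e` starts at `u`, `fc (φ e) = fc e`, and `u ∉ S`, so all faces at `u` are in
`R' ⊆ R`, so `u ∈ inV M R`, contradiction. -/
def S_Sel : Prop :=
  ∀ (V : Type) [Fintype V] [DecidableEq V] (G : SimpleGraph V) [DecidableRel G.Adj]
    (M : CMap G.Dart V), PlaneMap M → G.Connected →
    ∀ (o : Fc M) (R Ps : Finset (Fc M)) (w : ZMod 7 → V), o ∉ R → Bd M R 7 w → Pent M R Ps →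
    ∀ (c : Fc M → V) (m : Fc M → Fc M), (∀ f ∈ Ps, Inc M (c f) f) →
      (∀ f ∈ Ps, m f ∈ Ps ∧ m (m f) = f) →
      (∀ f ∈ Ps, m f ≠ f → ∃ h, Inc M (c f) h ∧ Inc M (c (m f)) h) →
      (∀ f ∈ Ps, m f = f → ∃ u, u ∉ inV M R ∧ G.Adj (c f) u) →
      BipOn G (inV M R \ Ps.image c)

/-- **Choice.** Pure logic: the choice of the common vertices from the involution, consistently for
the two members of a pair. `B` is a property which is realised by some vertex of every fixed point.
PROOF. For `a` with `m a ≠ a` choose `h, v, v'` from `adj`. Choose an injection `e : ι → ℕ`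
(`Fintype.equivFin`). Put `c a = v a` if `e a < e (m a)`, `c a = v' (m a)` if `e (m a) < e a`, and the vertex
with the property `B` if `m a = a`. -/
def S_Choice : Prop :=
  ∀ (ι F W : Type) [Fintype ι] (m : ι → ι) (inc : W → ι → Prop) (on : W → F → Prop) (B : ι → W → Prop),
    (∀ a, m (m a) = a) →
    (∀ a, m a ≠ a → ∃ (h : F) (v v' : W), inc v a ∧ inc v' (m a) ∧ on v h ∧ on v' h) →
    (∀ a, m a = a → ∃ v, inc v a ∧ B a v) →
    ∃ c : ι → W, (∀ a, inc (c a) a) ∧ (∀ a, m a ≠ a → ∃ h, on (c a) h ∧ on (c (m a)) h) ∧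
      ∀ a, m a = a → B a (c a)

/-- **Fin.** Allowed: `S_Sel, S_Choice, S_Val, S_PentCard`. From an involution of the pentagons with
exits whose chosen vertices have at least two neighbours outside of the interior (together) we get a
contradiction.
PROOF. `S_Choice` with `ι = {f // f ∈ Ps}`, `inc v f = Inc M v f`, `on = Inc`, `B = B`; extend `c`, `m` to all
faces. `W = Ps.image c`, `|W| ≤ |Ps| = k`. `inV M R \ W` is nonempty (`|inV M R| = 5 k`, `k ≥ 1`;
`aV M Ps ∅ = inV M R`). `S_Sel`, `S_Val` with `U = ∅`: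
`5 k + 2 k + 8 + 2 chd + 3 eBt G W (inV M R)ᶜ < 7 |W| + 14 ≤ 7 k + 14` (`∑ (f ∈ R), (len f - 4) = k`), so
`eBt ≤ 1`. But `eBt ≥ 2` by the last hypothesis (`two`), applied to `c`. -/
def S_Fin : Prop :=
  ∀ (V : Type) [Fintype V] [DecidableEq V] (G : SimpleGraph V) [DecidableRel G.Adj]
    (M : CMap G.Dart V) (o : Fc M) (L : V → Finset ℕ) (P : Finset V) (g : V → Finset ℕ),
    MinDisc G M o L P g →
    ∀ (R Ps : Finset (Fc M)) (w : ZMod 7 → V), o ∉ R → Bd M R 7 w → Pent M R Ps → Ps.Nonempty →
    ∀ (m : {f // f ∈ Ps} → {f // f ∈ Ps}) (B : {f // f ∈ Ps} → V → Prop), (∀ a, m (m a) = a) →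
      (∀ a, m a ≠ a → (pg M Ps).Adj a (m a)) →
      (∀ a v, B a v → ∃ u, u ∉ inV M R ∧ G.Adj v u) →
      (∀ a, m a = a → ∃ v, Inc M v a ∧ B a v) →
      (∀ c : {f // f ∈ Ps} → V, (∀ a, Inc M (c a) a) → (∀ a, m a = a → B a (c a)) →
        2 ≤ eBt G (univ.image c) (inV M R)ᶜ) →
      False

/-- **Step.** Allowed: `S_RegIneq, S_RegProp, S_Fam, S_Conn0, S_Quads7, S_Fin, S_Parity, S_MinDeg`
(and `matching_exits`, `oddFam_parity` from `Bad/Tutte.lean`). A bad disc contains a smaller bad disc.
PROOF. Suppose that there is no smaller one.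
(0) `k = |Ps|` is odd: `7 = |bd M R|` has the parity of `∑ (f ∈ R), len f` (`S_Parity`), so of `k`.
(1) `X = ∅`: `S_RegIneq` gives `∑ (ρ ∈ regs ∅), (|bd ρ| - 2) + 2 qX ≤ 5`, every term is at least `2`
(`S_RegProp`). `S_Fam` with `F = {univ}` gives an odd `ρ`, `|bd ρ| ≥ 7`, so it is the only one and `qX = 0`:
`|regs ∅| = 1`, every face of `R` touches `aV M Ps ∅ = inV M R` (`cover`, `inner`).  `S_Conn0` gives the
hypothesis `h0` of `matching_exits`.
(2) `X ≠ ∅` (`X ⊆ Ps`): an odd `ρ ∈ regs X` has `|bd ρ| ≠ 7`, otherwise `(ρ, Ps ∩ ρ)` is a smaller bad disc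
(`X` is disjoint from `ρ`, so `|Ps ∩ ρ| < |Ps|`; it is nonempty since its number is odd); `|bd ρ|` is odd
(`S_RegProp`), so `|bd ρ| ≥ 9`. The even ones have `|bd ρ| ≥ 4`. So `S_RegIneq` gives
`7 * #odd + 2 qX ≤ 7 |X| + 5`, and with `S_Fam`: `7 |F| + 2 qX ≤ 7 |X| + 5`. So `|F| ≤ |X|`, and `|F| + 1 ≤ |X|`
by `oddFam_parity` (`c = 0`).
(3) Case 1: some `x ∈ inV M R` has two different neighbours `u, u' ∉ inV M R`. Let `f₀ ∈ Ps` be its pentagon.
`matching_exits` with `B = {f₀}`, `r = 1` (`h3` follows from `h1`: `B ⊆ X` implies `X ≠ ∅`). `S_Fin` with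
`B a v = (v = x)`: `eBt ≥ 2` (the pairs `(x, u)`, `(x, u')`).
(4) Case 2: no such `x`. `B` = pentagons with a vertex adjacent to a vertex outside of `inV M R`.
`matching_exits` with `r = 3`: `h3`: if `B ⊆ X` then `S_Quads7` (degrees from `S_MinDeg`: `inV M R` is
disjoint from `P`, because a vertex of `P` has a corner of `o ∉ R`): `qX ≥ 7`, so `X ≠ ∅` (for `X = ∅`: `qX = 0` by
(1)), `7 |F| + 14 ≤ 7 |X| + 5`, so `|F| + 2 ≤ |X|`, and `|F| + 3 ≤ |X|` by `oddFam_parity` (`c = 2`). `S_Fin` with
`B a v` = (`v` is adjacent to a vertex outside of `inV M R`): three different fixed points, three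
different vertices `c a` (`Pent.disj`), each with a neighbour outside: `eBt ≥ 3`. -/
def S_Step : Prop :=
  ∀ (V : Type) [Fintype V] [DecidableEq V] (G : SimpleGraph V) [DecidableRel G.Adj]
    (M : CMap G.Dart V) (o : Fc M) (L : V → Finset ℕ) (P : Finset V) (g : V → Finset ℕ),
    MinDisc G M o L P g →
    ∀ (R Ps : Finset (Fc M)) (w : ZMod 7 → V), o ∉ R → Bd M R 7 w → Pent M R Ps → Ps.Nonempty →
    ∃ (R' Ps' : Finset (Fc M)) (w' : ZMod 7 → V), o ∉ R' ∧ Bd M R' 7 w' ∧ Pent M R' Ps' ∧
      Ps'.Nonempty ∧ Ps'.card < Ps.card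

/-- **NoBad.** Allowed: `S_Step`. There are no bad discs in a minimal counterexample.
PROOF. Infinite descent on `|Ps|`. -/
def S_NoBad : Prop :=
  ∀ (V : Type) [Fintype V] [DecidableEq V] (G : SimpleGraph V) [DecidableRel G.Adj]
    (M : CMap G.Dart V) (o : Fc M) (L : V → Finset ℕ) (P : Finset V) (g : V → Finset ℕ),
    MinDisc G M o L P g →
    ∀ (R Ps : Finset (Fc M)) (w : ZMod 7 → V), o ∉ R → Bd M R 7 w → Pent M R Ps → Ps.Nonempty →
    False

end BadD
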