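import Pool.Agent.Lib.MP_86b854_co.DAll
import Pool.Agent.Lib.MP_86b854_co.Bad.Atoms
import Pool.Agent.Lib.MP_86b854_co.Bad.BdNe
import Pool.Agent.Lib.MP_86b854_co.Bad.BipBd
import Pool.Agent.Lib.MP_86b854_co.Bad.Choice
import Pool.Agent.Lib.MP_86b854_co.Bad.Conn0
import Pool.Agent.Lib.MP_86b854_co.Bad.Fam
import Pool.Agent.Lib.MP_86b854_co.Bad.Fin
import Pool.Agent.Lib.MP_86b854_co.Bad.NoBad
import Pool.Agent.Lib.MP_86b854_co.Bad.PentCard
import Pool.Agent.Lib.MP_86b854_co.Bad.Quads7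
import Pool.Agent.Lib.MP_86b854_co.Bad.RegIneq
import Pool.Agent.Lib.MP_86b854_co.Bad.RegProp
import Pool.Agent.Lib.MP_86b854_co.Bad.Sel
import Pool.Agent.Lib.MP_86b854_co.Bad.Step
import Pool.Agent.Lib.MP_86b854_co.Lv.NB

set_option autoImplicit false

/-!
# MP_86b854_co : no bad discs in a minimal counterexample, everything proved
-/

namespace BadD

theorem aSel : S_Sel := tSel tBipBd C7.aNest C7.tParity C7.tCorner
theorem aFin : S_Fin := tFin aSel tChoice C7.aVal tPentCard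
theorem aRegIneq : S_RegIneq := tRegIneq tPentCard C7.tEulerSub C7.aDiscEuler
theorem aRegProp : S_RegProp := tRegProp tBdNe C7.aShortBd C7.tParity
theorem aStep : S_Step :=
  tStep aRegIneq aRegProp (tFam tAtoms) (tConn0 tAtoms) tQuads7 aFin C7.tParity C7.tMinDeg
theorem aNoBad : S_NoBad := tNoBad aStep

end BadD

namespace C7

theorem aNoBad : S_NoBad := tNB BadD.aNoBad aShortBd

end C7
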