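import Pool.Agent.Lib.MP_86b854_co.Bad.Spec
import Pool.Agent.Lib.MP_86b854_co.D.FaceLen

set_option autoImplicit false

/-!
# MP_86b854_co : `S_Quads7`. Seven quads along the boundary
-/

namespace BadD

open PLM T72 C7 Finset Equiv

namespace Quads7M

variable {V : Type} [Fintype V] [DecidableEq V] {G : SimpleGraph V} [DecidableRel G.Adj]

/-- the darts of a face -/
theorem face_iter (M : CMap G.Dart V) (d : G.Dart) :
    (∀ d', fc M d' = fc M d → ∃ i < len M (fc M d), M.φ^[i] d = d') ∧
      M.φ^[len M (fc M d)] d = d := by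
  classical
  have hn : 0 < Function.minimalPeriod M.φ d := by
    apply Function.minimalPeriod_pos_of_mem_periodicPts
    exact M.φ.injective.mem_periodicPts d
  have h1 : ∀ d', fc M d' = fc M d → ∃ i, M.φ^[i] d = d' := by
    intro d' hd'
    have h2 := FaceLenAux.fc_eq_iff.1 hd'.symm
    exact PanD.SameCycle.mem_closed h2 (S := {x | ∃ i, M.φ^[i] d = x}) (by
      rintro z ⟨i, rfl⟩
      exact ⟨i + 1, Function.iterate_succ_apply' _ _ _⟩) ⟨0, rfl⟩
  have h2 : ∀ i, fc M (M.φ^[i] d) = fc M d := by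
    intro i
    induction i with
    | zero => rfl
    | succ i ih => rw [Function.iterate_succ_apply', FaceLenAux.fc_phi, ih]
  have h3 : len M (fc M d) = Function.minimalPeriod M.φ d := by
    unfold len
    have h4 : (univ.filter fun d' => fc M d' = fc M d) =
        (range (Function.minimalPeriod M.φ d)).image fun i => M.φ^[i] d := by
      ext d'
      rw [mem_filter, mem_image]
      constructor
      · rintro ⟨-, h5⟩
        obtain ⟨i, hi⟩ := h1 d' h5
        refine ⟨i % Function.minimalPeriod M.φ d, mem_range.2 (Nat.mod_lt _ hn), ?_⟩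
        rw [Function.iterate_mod_minimalPeriod_eq, hi]
      · rintro ⟨i, -, rfl⟩
        exact ⟨mem_univ _, h2 i⟩
    rw [h4, card_image_of_injOn, card_range]
    intro i hi j hj hij
    rw [mem_coe, mem_range] at hi hj
    exact Function.iterate_injOn_Iio_minimalPeriod hi hj hij
  rw [h3]
  refine ⟨fun d' hd' => ?_, Function.iterate_minimalPeriod⟩
  obtain ⟨i, hi⟩ := h1 d' hd'
  exact ⟨i % Function.minimalPeriod M.φ d, Nat.mod_lt _ hn, by
    rw [Function.iterate_mod_minimalPeriod_eq, hi]⟩

theorem face_four (M : CMap G.Dart V) (d : G.Dart) (h : len M (fc M d) = 4) :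
    M.φ (M.φ (M.φ (M.φ d))) = d ∧ ∀ d', fc M d' = fc M d →
      d' = d ∨ d' = M.φ d ∨ d' = M.φ (M.φ d) ∨ d' = M.φ (M.φ (M.φ d)) := by
  obtain ⟨h1, h2⟩ := face_iter M d
  rw [h] at h1 h2
  refine ⟨h2, fun d' hd' => ?_⟩
  obtain ⟨i, hi, rfl⟩ := h1 d' hd'
  interval_cases i
  · exact Or.inl rfl
  · exact Or.inr (Or.inl rfl)
  · exact Or.inr (Or.inr (Or.inl rfl))
  · exact Or.inr (Or.inr (Or.inr rfl))

/-- a fixed point of the rotation gives a vertex of degree one -/
theorem deg_one {M : CMap G.Dart V} (hM : PlaneMap M) (d : G.Dart) (h : M.σ d = d) :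
    G.degree d.fst ≤ 1 := by
  have h1 : ∀ u, G.Adj d.fst u → u = d.snd := by
    intro u hu
    have h2 := PanD.SameCycle.mem_closed
      (FaceLenAux.same_of_fst hM (d := d) (e := ⟨(d.fst, u), hu⟩) rfl) (S := {d}) (by
        intro z hz
        rw [Set.mem_singleton_iff] at hz
        rw [hz, h]
        rfl) rfl
    rw [Set.mem_singleton_iff] at h2
    exact congrArg (fun z : G.Dart => z.snd) h2
  rw [← SimpleGraph.card_neighborFinset_eq_degree]
  apply card_le_one.2
  intro a ha b hb
  rw [SimpleGraph.mem_neighborFinset] at ha hb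
  rw [h1 a ha, h1 b hb]

end Quads7M

open Quads7M in
theorem tQuads7 : S_Quads7 := by
  classical
  intro V _ _ G _ M hM R Ps X w hbd hP hT hdeg huniq hX
  obtain ⟨hw, hadj, hb⟩ := hbd
  let e : ZMod 7 → G.Dart := fun i => ⟨(w i, w (i + 1)), hadj i⟩
  have hbd' : ∀ d, d ∈ bd M R ↔ fc M d ∈ R ∧ fc M d.symm ∉ R := by
    intro d
    unfold bd
    rw [mem_filter]
    simp
  have hinV : ∀ v, v ∈ inV M R ↔ ∀ d : G.Dart, d.fst = v → fc M d ∈ R := by
    intro v
    unfold inV
    rw [mem_filter]
    simp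
  have he : ∀ i, fc M (e i) ∈ R ∧ fc M (e i).symm ∉ R := fun i =>
    (hbd' _).1 ((hb _).2 ⟨i, rfl, rfl⟩)
  have hwi : ∀ i, w i ∉ inV M R := by
    intro i h
    have h1 := (he (i - 1)).2
    apply h1
    apply (hinV _).1 h
    change w (i - 1 + 1) = w i
    rw [sub_add_cancel]
  have hnotPs : ∀ i, fc M (e i) ∉ Ps := fun i h => hwi i (hP.inner _ h _ ⟨e i, rfl, rfl⟩)
  have key : ∀ i, M.φ (M.φ (M.φ (M.φ (e i)))) = e i ∧
      (∀ d', fc M d' = fc M (e i) → d' = e i ∨ d' = M.φ (e i) ∨ d' = M.φ (M.φ (e i)) ∨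
        d' = M.φ (M.φ (M.φ (e i)))) ∧ (M.φ (M.φ (e i))).fst ∈ inV M R ∧
      (M.φ (M.φ (M.φ (e i)))).fst ∈ inV M R := by
    intro i
    obtain ⟨h4, hd'⟩ := face_four M (e i) (hP.four _ (he i).1 (hnotPs i))
    set d1 := M.φ (e i) with hd1
    set d2 := M.φ d1 with hd2
    set d3 := M.φ d2 with hd3
    have e1 : d1.fst = w (i + 1) := FaceLenAux.phi_fst hM (e i)
    have e2 : d2.fst = d1.snd := FaceLenAux.phi_fst hM d1
    have e3 : d3.fst = d2.snd := FaceLenAux.phi_fst hM d2
    have e4 : d3.snd = w i := by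
      rw [← FaceLenAux.phi_fst hM d3, h4]
    have f1 : fc M d1 = fc M (e i) := FaceLenAux.fc_phi M (e i)
    have a1 : G.Adj d2.fst (w (i + 1)) := by
      rw [e2, ← e1]
      exact d1.adj.symm
    have a2 : G.Adj d2.fst d3.fst := by
      rw [e3]
      exact d2.adj
    have a3 : G.Adj d3.fst (w i) := by
      rw [← e4]
      exact d3.adj
    have hxy : d2.fst ∈ inV M R ∨ d3.fst ∈ inV M R := by
      obtain ⟨v, hv, d', hdv, hdf⟩ := hT _ (he i).1
      rcases hd' d' hdf with h | h | h | h
      · rw [h] at hdv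
        have hdv' : w i = v := hdv
        exact absurd (hdv' ▸ hv) (hwi i)
      · rw [h, e1] at hdv
        exact absurd (hdv ▸ hv) (hwi (i + 1))
      · rw [h] at hdv
        exact Or.inl (hdv ▸ hv)
      · rw [h] at hdv
        exact Or.inr (hdv ▸ hv)
    refine ⟨h4, hd', ?_⟩
    by_cases hy : d2.fst ∈ inV M R
    · refine ⟨hy, ?_⟩
      by_contra hx
      have h5 := huniq _ hy _ _ a1 a2 (hwi _) hx
      -- `d2` is the reverse of `d1`
      have h6 : d2 = d1.symm := by
        apply SimpleGraph.Dart.ext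
        apply Prod.ext
        · exact e2
        · change d2.snd = d1.fst
          rw [← e3, ← h5, e1]
      have h7 : M.σ d1.symm = d1.symm := by
        rw [← FaceLenAux.phi_eq hM]
        exact h6
      have h8 := deg_one hM d1.symm h7
      have h9 := hdeg _ hy
      rw [h6] at h9
      omega
    · exfalso
      have hx := hxy.resolve_left hy
      have h5 := huniq _ hx _ _ a3 a2.symm (hwi _) hy
      have h6 : d1 = (e i).symm := by
        apply SimpleGraph.Dart.ext
        apply Prod.ext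
        · exact e1
        · change d1.snd = w i
          rw [← e2, ← h5]
      apply (he i).2
      rw [← h6, f1]
      exact (he i).1
  have hcard : (univ : Finset (ZMod 7)).card = 7 := by
    rw [card_univ, ZMod.card]
  rw [← hcard]
  unfold qX
  apply card_le_card_of_injOn (fun i => fc M (e i))
  · intro i _
    obtain ⟨h4, hd', hy, hx⟩ := key i
    set d1 := M.φ (e i) with hd1
    set d2 := M.φ d1 with hd2
    set d3 := M.φ d2 with hd3
    have e1 : d1.fst = w (i + 1) := FaceLenAux.phi_fst hM (e i)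
    have e2 : d2.fst = d1.snd := FaceLenAux.phi_fst hM d1
    have e4 : d3.snd = w i := by
      rw [← FaceLenAux.phi_fst hM d3, h4]
    have a1 : G.Adj d2.fst (w (i + 1)) := by
      rw [e2, ← e1]
      exact d1.adj.symm
    have a3 : G.Adj d3.fst (w i) := by
      rw [← e4]
      exact d3.adj
    rw [mem_coe, mem_filter]
    refine ⟨(he i).1, hnotPs i, ?_⟩
    rintro ⟨v, hv, d', hdv, hdf⟩
    unfold aV at hv
    rw [mem_filter] at hv
    obtain ⟨-, f, hf, hfX, hvf⟩ := hv
    have hin : ∀ u, G.Adj v u → u ∉ inV M R → False := fun u hu hu' =>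
      hfX (hX f hf ⟨v, u, hvf, hu, hu'⟩)
    have hvin := hP.inner f hf v hvf
    rcases hd' d' hdf with h | h | h | h
    · rw [h] at hdv
      have hdv' : w i = v := hdv
      exact absurd (hdv' ▸ hvin) (hwi i)
    · rw [h, e1] at hdv
      exact absurd (hdv ▸ hvin) (hwi (i + 1))
    · rw [h] at hdv
      rw [← hdv] at hin
      exact hin _ a1 (hwi _)
    · rw [h] at hdv
      rw [← hdv] at hin
      exact hin _ a3 (hwi _)
  · intro j _ i _ hij
    obtain ⟨h4, hd', hy, hx⟩ := key i
    have e1 : (M.φ (M.φ (e i))).fst = (M.φ (e i)).snd := FaceLenAux.phi_fst hM _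
    rcases hd' (e j) hij with h | h | h | h
    · exact hw (congrArg (fun z : G.Dart => z.fst) h)
    · exfalso
      apply hwi (j + 1)
      have h5 : w (j + 1) = (M.φ (e i)).snd := congrArg (fun z : G.Dart => z.snd) h
      rw [h5, ← e1]
      exact hy
    · exfalso
      apply hwi j
      have h5 : w j = (M.φ (M.φ (e i))).fst := congrArg (fun z : G.Dart => z.fst) h
      rw [h5]
      exact hy
    · exfalso
      apply hwi j
      have h5 : w j = (M.φ (M.φ (M.φ (e i)))).fst := congrArg (fun z : G.Dart => z.fst) h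
      rw [h5]
      exact hx

end BadD
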