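import Pool.Agent.Lib.MP_86b854_co.Bad.Atoms

set_option autoImplicit false
set_option linter.unusedSectionVars false

/-!
# MP_86b854_co : elementary facts on the regions `regs M Ps X`
-/

namespace BadD

open PLM T72 C7 Finset Equiv

namespace Reg

open C7.Bas Ato

variable {V : Type} [Fintype V] [DecidableEq V] {G : SimpleGraph V} [DecidableRel G.Adj]
  {M : CMap G.Dart V} {R Ps X : Finset (Fc M)}

theorem mem_aV {v : V} : v ∈ aV M Ps X ↔ ∃ f ∈ Ps, f ∉ X ∧ Inc M v f := by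
  simp [aV]

theorem mem_Hd {d : G.Dart} : d ∈ Hd M Ps X ↔ d.fst ∉ aV M Ps X ∧ d.snd ∉ aV M Ps X := by
  simp [Hd]

theorem Hd_symm {d : G.Dart} (h : d ∈ Hd M Ps X) : d.symm ∈ Hd M Ps X := by
  rw [mem_Hd] at h ⊢
  exact ⟨h.2, h.1⟩

theorem mem_regs {ρ : Finset (Fc M)} :
    ρ ∈ regs M Ps X ↔ ρ ∈ atoms M (Hd M Ps X) ∧ ∃ f ∈ ρ, Tch M (aV M Ps X) f := by
  simp [regs]

/-- a face touches both ends of its darts -/
theorem tch_of_notin (hM : PlaneMap M) {d : G.Dart} (h : d ∉ Hd M Ps X) :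
    Tch M (aV M Ps X) (fc M d) := by
  rw [mem_Hd] at h
  by_cases h1 : d.fst ∈ aV M Ps X
  · exact ⟨d.fst, h1, d, rfl, rfl⟩
  · have h2 : d.snd ∈ aV M Ps X := by
      by_contra h3
      exact h ⟨h1, h3⟩
    exact ⟨d.snd, h2, M.φ d, phi_fst hM d, fc_phi d⟩

theorem cl_single (hM : PlaneMap M) {f : Fc M} (h : ¬ Tch M (aV M Ps X) f) :
    Cl M (Hd M Ps X) {f} := by
  intro d hd
  have h1 := tch_of_notin hM hd
  have h2 : Tch M (aV M Ps X) (fc M d.symm) := tch_of_notin hM fun h3 => hd (by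
    have := Hd_symm h3
    rwa [SimpleGraph.Dart.symm_symm] at this)
  rw [mem_singleton, mem_singleton]
  constructor
  · intro h3
    exact absurd (h3 ▸ h1) h
  · intro h3
    exact absurd (h3 ▸ h2) h

theorem tch_all (hM : PlaneMap M) {ρ : Finset (Fc M)} (hρ : ρ ∈ regs M Ps X) :
    ∀ f ∈ ρ, Tch M (aV M Ps X) f := by
  intro f hf
  by_contra h
  obtain ⟨h1, g, hg, h2⟩ := mem_regs.1 hρ
  have h3 := sub_of_mem h1 (cl_single hM h) hf (mem_singleton_self f)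
  have h4 := mem_singleton.1 (h3 hg)
  exact h (h4 ▸ h2)

theorem aV_sub (hP : Pent M R Ps) : aV M Ps X ⊆ inV M R := by
  intro v hv
  obtain ⟨f, h1, -, h2⟩ := mem_aV.1 hv
  exact hP.inner f h1 v h2

theorem tch_mem (hP : Pent M R Ps) {f : Fc M} (h : Tch M (aV M Ps X) f) : f ∈ R := by
  obtain ⟨v, hv, d, hd, rfl⟩ := h
  exact mem_inV.1 (aV_sub hP hv) d hd

theorem tch_pent (hP : Pent M R Ps) {f : Fc M} (hf : f ∈ Ps) :
    Tch M (aV M Ps X) f ↔ f ∉ X := by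
  constructor
  · rintro ⟨v, hv, h1⟩ h2
    obtain ⟨f', h3, h4, h5⟩ := mem_aV.1 hv
    have h6 := hP.disj f hf f' h3 v h1 h5
    exact h4 (h6 ▸ h2)
  · intro h
    obtain ⟨d, rfl⟩ := exists_fc f
    exact ⟨d.fst, mem_aV.2 ⟨_, hf, h, d, rfl, rfl⟩, d, rfl, rfl⟩

/-- all corners at a vertex of `aV` have the same status -/
theorem corner (hM : PlaneMap M) {ρ : Finset (Fc M)} {H : Finset G.Dart} (hcl : Cl M H ρ) {v : V}
    (hv : ∀ d : G.Dart, d.fst = v → d ∉ H) (d e : G.Dart) (hd : d.fst = v) (he : e.fst = v) :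
    fc M d ∈ ρ ↔ fc M e ∈ ρ := by
  have h1 : M.σ.SameCycle d e := by
    rw [← M.hv, hM.1, hM.1, hd, he]
  have hstep : ∀ a : G.Dart, a.fst = v → (fc M a ∈ ρ ↔ fc M (M.σ a) ∈ ρ) := by
    intro a ha
    rw [← fc_symm hM]
    exact hcl a (hv a ha)
  have hfst : ∀ n : ℤ, ((M.σ ^ n) d).fst = v := by
    intro n
    rw [← hM.1, ← hd, ← hM.1 d]
    exact (M.hv _ _).2 (Perm.SameCycle.symm ⟨n, rfl⟩)
  obtain ⟨n, rfl⟩ := h1
  clear he
  induction n with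
  | zero => simp
  | succ n ih =>
    have h2 : (M.σ ^ ((n : ℤ) + 1)) d = M.σ ((M.σ ^ (n : ℤ)) d) := by
      rw [add_comm, zpow_add, zpow_one, Perm.mul_apply]
    rw [h2, ← hstep _ (hfst _)]
    exact ih
  | pred n ih =>
    have h2 : M.σ ((M.σ ^ (-(n : ℤ) - 1)) d) = (M.σ ^ (-(n : ℤ))) d := by
      rw [← Perm.mul_apply, ← zpow_one_add]
      congr 2
      ring
    rw [hstep _ (hfst (-(n : ℤ) - 1)), h2]
    exact ih

end Reg

end BadD
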